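import Pool.Agent.Lib_helper78.AEC.Notions
import Pool.Agent.Lib_helper40.TDB.Tdp
import Pool.Agent.Lib_helper57.AFF.G

/-!
# Reading the virtual oracle of a closed oracle
-/

set_option autoImplicit false

namespace Pool.Agent.AEC

open Pool.Agent.CK Pool.Agent.TD Pool.Agent.CKP

section

variable {ext : Str → Finset Str}

/-- reading the virtual oracle -/
theorem ptime_X {Pt X J R H O : Lang} (hO : IsClo ext (join (AFF.emb Pt X J) R) H O) :
    PTime O (fun w : Str => X w) := by
  have h1 : PTime O (fun w : Str => O (false :: false :: false :: false ::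
      O (false :: false :: false :: true :: w) :: w)) := by
    refine PTime.ask ?_
    refine PTime.cons (PTime.const false) (PTime.cons (PTime.const false)
      (PTime.cons (PTime.const false) (PTime.cons (PTime.const false) (PTime.cons ?_ PTime.id))))
    refine PTime.ask ?_
    exact PTime.cons (PTime.const false) (PTime.cons (PTime.const false)
      (PTime.cons (PTime.const false) (PTime.cons (PTime.const true) PTime.id)))
  refine h1.of_eq fun w => ?_
  rw [hO.left, hO.left]
  show (if Pt w = Pt w then X w else J w) = X w
  rw [if_pos rfl]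

/-- trapdoor permutations that are computed from the virtual oracle -/
theorem tdp_clo {Pt Y J R H O : Lang} {S : Sec}
    (hO : IsClo ext (join (AFF.emb Pt (join (orc S fun _ _ => []) Y) J) R) H O) :
    TrapdoorPermutations O (GG S) (FF S) (HH S) := by
  have h3 := tdp S (fun _ _ => [])
  have hp : PTime O (fun w : Str => orc S (fun _ _ => []) w) :=
    ((ptime_X hO).comp (PTime.cons (PTime.const false) PTime.id)).of_eq fun w => rfl
  exact ⟨AFF.sub_InFP hp h3.inFP_G, AFF.sub_InFP hp h3.inFP_F, AFF.sub_InFP hp h3.inFP_H,
    h3.bij_G, h3.bij_F, h3.inv⟩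

end

end Pool.Agent.AEC
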