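import Pool.Agent.Lib_helper78.AEC.Diag
import Pool.Agent.Lib_helper78.AEC.Rd

/-!
# Trapdoor permutations and `coNP ⊄ NP` relative to closed oracles
-/

set_option autoImplicit false

namespace Pool.Agent.AEC

open Pool.Agent.CK Pool.Agent.TD Pool.Agent.TPR Pool.Agent.ADV Pool.Agent.CKP

theorem LW_inNP {O X : Lang} (h : PTime O (fun w : Str => X w)) : InNP O (LW X) := by
  have h1 : PTime O (fun p : Str × Str => p.1) := PTime.id.fst
  have h2 : PTime O (fun p : Str × Str => p.2) := PTime.id.snd
  have hV : PTime O (fun p : Str × Str =>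
      (decide (p.2.length = p.1.length)) && X (true :: (p.1 ++ p.2))) :=
    (PTime.nat_eq h2.length h1.length).and
      (h.comp (PTime.cons (PTime.const true) (h1.append h2)))
  refine inNP_of hV (B := fun n => n) UPoly.id ?_ ?_
  · intro x hx
    obtain ⟨y, hy, hX⟩ := (LW_iff X x).1 hx
    exact ⟨y, hy.le, by simp [hy, hX]⟩
  · intro x y hxy
    rw [Bool.and_eq_true, decide_eq_true_iff] at hxy
    exact (LW_iff X x).2 ⟨y, hxy.1, hxy.2⟩

theorem secure_mono {O : Lang} {G F : Str → Str} {T T' : ℕ → ℕ}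
    (h : ∀ᶠ n in Filter.atTop, T' n ≤ T n) (hS : Secure O G F T) : Secure O G F T' := by
  intro c
  filter_upwards [h, hS c] with n hn hc u hu t ht
  exact lt_of_le_of_lt (Nat.mul_le_mul_right _ hn) (hc u (hu.trans hn) t (ht.trans hn))

section

variable {ext : Str → Finset Str}

/-- Trapdoor permutations and `coNP ⊄ NP` relative to all closed oracles. -/
theorem tdpNP (hext : Adm ext) (A0 R : Lang) (β : ℕ → ℕ)
    (hβ : Filter.Tendsto β Filter.atTop Filter.atTop) :
    ∃ (P : Lang) (G F K : Str → Str) (L : Lang),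
      ∀ (H : Lang) (w : ℕ → Str) (O : Lang),
        (∀ n, (w n).length ≤ Nat.log 2 (Nat.log 2 n)) →
        (∀ (n : ℕ) (x : Str), x.length ≤ n → H x = A0 (pairS x (w n))) →
        IsClo ext (join P R) H O →
        TrapdoorPermutations O G F K ∧ Secure O G F (fun n => 2 ^ (n / β n)) ∧
          InNP O L ∧ ¬ InNP O (fun x => !L x) := by
  obtain ⟨b, hb, hbβ⟩ := exists_slow β hβ
  obtain ⟨E, hE⟩ := exists_E hb
  obtain ⟨n0, hn0, h40, hNum⟩ := numSlow hb
  obtain ⟨Pt, hP⟩ := AFF.exists_genP (TT ext)
  obtain ⟨S, J, hS⟩ := secretsG hext A0 R Pt hP hNum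
  have hex := fun v : Str => exists_clo hext (join (fun _ => false) R) (fun y => A0 (pairS y v))
  choose o ho using hex
  obtain ⟨f, g, h0, h⟩ := chain hE hext hP o (pX S) J (fun _ => rfl)
  have hX : limX f = join (orc S fun _ _ => []) fun w => limX f (true :: w) := by
    funext w
    match w with
    | [] =>
      have h1 := (lim_eq hE h 0 [] (by
        rw [List.length_nil]
        exact Nat.succ_pos _)).1
      rw [h0] at h1
      exact h1
    | false :: w =>
      by_contra hne
      have h1 : limX f (false :: w) ≠ (f 0).1 (false :: w) := by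
        rw [h0]
        exact hne
      obtain ⟨j, hj, -⟩ := (lim_changes h _).1 h1
      obtain ⟨-, u, hu⟩ := (h j).2.1 _ hj
      exact absurd (List.cons.inj hu).1 (by simp)
    | true :: w => rfl
  refine ⟨AFF.emb Pt (limX f) (limJ f), GG S, FF S, HH S, LW (limX f),
    fun H w O h1 h2 hO => ⟨?_, ?_, ?_, ?_⟩⟩
  · rw [hX] at hO
    exact tdp_clo hO
  · refine secure_mono ?_ (secureG hext hNum hS ?_ h1 h2 hO)
    · filter_upwards [Filter.eventually_ge_atTop n0] with n hn
      have h3 := h40 n hn
      exact Nat.pow_le_pow_right (by norm_num) (Nat.div_le_div_left (hbβ n) (by omega))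
    · filter_upwards [Filter.eventually_ge_atTop n0] with n hn
      obtain ⟨D, hD1, hD2, hD3⟩ := lim_few hE hb h (hn0.trans hn) (h40 n hn) (Pt := Pt)
      rw [h0] at hD3
      exact ⟨D, hD1, hD2, hD3⟩
  · exact LW_inNP (ptime_X hO)
  · exact not_inNP hE hext h ho h1 h2 hO

end

end Pool.Agent.AEC
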