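import Pool.Agent.Lib_helper78.AEC.MlDefs
import Pool.Agent.Lib_helper78.ADV.Base

/-!
# Oracles that are closed under parities and multilinear extensions; weak oracles
-/

set_option autoImplicit false

namespace Pool.Agent.AEC

open Pool.Agent.CK Pool.Agent.ADV

/-- `H` is decided by `A` with strong advice of doubly logarithmic length: one advice word `w n` for
all inputs of length at most `n`. -/
structure Advice (A H : Lang) (w : ℕ → List Bool) : Prop where
  short : ∀ n, (w n).length ≤ Nat.log 2 (Nat.log 2 n)
  dec : ∀ (n : ℕ) (x : List Bool), x.length ≤ n → H x = A (pairS x (w n))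

/-- `O` is the closure of the oracles `R` and `H` under the parities over the sets `ext w` and the
multilinear extensions over the fields of `Φ`: `00s` asks `R` about `s`, `1x` asks `H` about `x`,
`010w` asks for the parity of `O` itself on `ext w`, and `011c`, where `c` is the code of `l`, `k`, a
point `y` of `(K k)^l` and a number `i`, asks for the coordinate `i` of the value at `y` of the
multilinear extension of `O` itself on `{0,1}^l`; all other answers are `0`. -/
structure ClosedOver (ext : List Bool → Finset (List Bool)) (Φ : Fields) (R H O : Lang) :
    Prop where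
  fst : ∀ s, O (false :: false :: s) = R s
  snd : ∀ x, O (true :: x) = H x
  parity : ∀ w, O (false :: true :: false :: w) = par (ext w) O
  mlin : ∀ (l k : ℕ) (y : Fin l → Φ.K k) (i : Fin (Φ.d k)),
    O (false :: true :: true :: code Φ l k y i) =
      decide ((Φ.basis k).repr (mle Φ O l k y) i = 1)
  rest : ∀ s, (s = [] ∨ s = [false] ∨ s = [false, true] ∨ ∃ w, s = false :: true :: true :: w ∧
    ∀ (l k : ℕ) (y : Fin l → Φ.K k) (i : Fin (Φ.d k)), w ≠ code Φ l k y i) → O s = false

end Pool.Agent.AEC
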