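import Pool.Agent.Lib_helper82.TPR.Base

/-!
# Secrets against arbitrary small families of adversaries

`Lib_helper82/TPR/Base.lean` (`base5`) with arbitrary numerical parameters.
-/

set_option autoImplicit false

namespace Pool.Agent.AEC

open Pool.Agent.CK Pool.Agent.TD Pool.Agent.TPR

/-- Base case: there are secrets that defeat a given small family of adversaries. -/
theorem baseG (n0 : ℕ) (a d k Dl : ℕ → ℕ) (num1 : ∀ n, n0 ≤ n → 18 * 2 ^ n ≤ k n ^ 2)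
    (num2 : ∀ n, n0 ≤ n → a n + 2 * n + 3 ≤ k n)
    (num3 : ∀ n, n0 ≤ n →
      Dl n * (2 ^ n * (k n * (d n + 2)) + 2 ^ n * (k n * (d n + 2))) < 4 ^ n)
    (Nh : ℕ) (Fm : Fam) (hBd : ∀ n, n0 ≤ n → CardBd (Fm n) (a n) ∧
      ∀ A ∈ Fm n, ∀ x, (A x).depth ≤ d n) (hemp : ∀ n, Nh < n → Fm n = ∅) :
    ∃ S : Sec, ∀ n, n0 ≤ n → ∀ A ∈ Fm n, Dl n * hits n (vv S n) A (O0 S) < 4 ^ n := by
  classical
  by_contra hno
  have hbad : ∀ ω : OM Nh, ∃ n : Fin (Nh + 1), n0 ≤ (n : ℕ) ∧ ∃ A ∈ Fm n,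
      (∃ y, k n * (d n + 2) ≤ hG (SO Nh ω) n A y) ∨
        ∃ pk, k n * (d n + 2) ≤ hF (SO Nh ω) n A pk := by
    intro ω
    by_contra h
    refine hno ⟨SO Nh ω, fun n hn0 A hA => ?_⟩
    have hnN : n < Nh + 1 := by
      by_contra hc
      rw [hemp n (by omega)] at hA
      exact hA
    have hall : (∀ y, hG (SO Nh ω) n A y < k n * (d n + 2)) ∧
        ∀ pk, hF (SO Nh ω) n A pk < k n * (d n + 2) := by
      constructor
      · intro y
        by_contra hc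
        exact h ⟨⟨n, hnN⟩, hn0, A, hA, Or.inl ⟨y, not_lt.1 hc⟩⟩
      · intro pk
        by_contra hc
        exact h ⟨⟨n, hnN⟩, hn0, A, hA, Or.inr ⟨pk, not_lt.1 hc⟩⟩
    have h1 := hits_le (SO Nh ω) n A
    have h2 : ∑ y, hG (SO Nh ω) n A y ≤ 2 ^ n * (k n * (d n + 2)) := by
      refine (Finset.sum_le_sum fun y _ => (hall.1 y).le).trans ?_
      rw [Finset.sum_const, Finset.card_univ, card_X_TD, smul_eq_mul]
    have h3 : ∑ y, hF (SO Nh ω) n A y ≤ 2 ^ n * (k n * (d n + 2)) := by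
      refine (Finset.sum_le_sum fun y _ => (hall.2 y).le).trans ?_
      rw [Finset.sum_const, Finset.card_univ, card_X_TD, smul_eq_mul]
    refine lt_of_le_of_lt ?_ (num3 n hn0)
    exact Nat.mul_le_mul_left _ (h1.trans (Nat.add_le_add h2 h3))
  have hcov : (Finset.univ : Finset (OM Nh)) ⊆
      (Finset.univ : Finset (Fin (Nh + 1))).biUnion fun n =>
        if n0 ≤ (n : ℕ) then Finset.univ.filter fun ω : OM Nh => ∃ A ∈ Fm n,
          (∃ y, k n * (d n + 2) ≤ hG (SO Nh ω) n A y) ∨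
            ∃ pk, k n * (d n + 2) ≤ hF (SO Nh ω) n A pk else ∅ := by
    intro ω _
    obtain ⟨n, hn0, h⟩ := hbad ω
    refine Finset.mem_biUnion.2 ⟨n, Finset.mem_univ _, ?_⟩
    rw [if_pos hn0]
    exact Finset.mem_filter.2 ⟨Finset.mem_univ _, h⟩
  have hone : ∀ n : Fin (Nh + 1), ((if n0 ≤ (n : ℕ) then Finset.univ.filter fun ω : OM Nh =>
      ∃ A ∈ Fm n, (∃ y, k n * (d n + 2) ≤ hG (SO Nh ω) n A y) ∨
        ∃ pk, k n * (d n + 2) ≤ hF (SO Nh ω) n A pk else ∅ : Finset (OM Nh)).card : ℝ) ≤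
      (Fintype.card (OM Nh) : ℝ) / 4 * (1 / 2) ^ (n : ℕ) := by
    intro n
    by_cases hn0 : n0 ≤ (n : ℕ)
    · rw [if_pos hn0]
      have hB := hBd n hn0
      have h := base_level Nh n (Fm n) hB.1.1 (a n) (d n) (k n) hB.1.2
        (fun A hA x => hB.2 A hA x) (num1 n hn0) (num2 n hn0)
      have h' : (2 : ℝ) ^ ((n : ℕ) + 2) * ((Finset.univ.filter fun ω : OM Nh => ∃ A ∈ Fm n,
          (∃ y, k n * (d n + 2) ≤ hG (SO Nh ω) n A y) ∨
            ∃ pk, k n * (d n + 2) ≤ hF (SO Nh ω) n A pk).card : ℝ) ≤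
          (Fintype.card (OM Nh) : ℝ) := by exact_mod_cast h
      have e : (1 / 2 : ℝ) ^ (n : ℕ) * 2 ^ ((n : ℕ) + 2) = 4 := by
        rw [pow_add, ← mul_assoc, ← mul_pow]; norm_num
      have hp : (0 : ℝ) < 2 ^ ((n : ℕ) + 2) := by positivity
      rw [← mul_le_mul_iff_right₀ hp]
      refine h'.trans (le_of_eq ?_)
      calc (Fintype.card (OM Nh) : ℝ) = (Fintype.card (OM Nh) : ℝ) / 4 *
            ((1 / 2 : ℝ) ^ (n : ℕ) * 2 ^ ((n : ℕ) + 2)) := by rw [e]; ring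
        _ = _ := by ring
    · rw [if_neg hn0]
      simp only [Finset.card_empty, Nat.cast_zero]
      positivity
  have hsum := (Finset.card_le_card hcov).trans Finset.card_biUnion_le
  rw [Finset.card_univ] at hsum
  have hsum' : (Fintype.card (OM Nh) : ℝ) ≤ ∑ n : Fin (Nh + 1),
      (Fintype.card (OM Nh) : ℝ) / 4 * (1 / 2) ^ (n : ℕ) := by
    refine le_trans ?_ (Finset.sum_le_sum fun n _ => hone n)
    rw [← Nat.cast_sum]
    exact_mod_cast hsum
  rw [← Finset.mul_sum, Fin.sum_univ_eq_sum_range fun n => (1 / 2 : ℝ) ^ n] at hsum'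
  have hg := sum_geometric_two_le (Nh + 1)
  have hpos : (0 : ℝ) < Fintype.card (OM Nh) := by
    have : Nonempty (OM Nh) := ⟨(fun _ => 1, fun _ _ => 1)⟩
    exact_mod_cast Fintype.card_pos
  have h5 : (Fintype.card (OM Nh) : ℝ) / 4 * ∑ i ∈ Finset.range (Nh + 1), (1 / 2 : ℝ) ^ i ≤
      (Fintype.card (OM Nh) : ℝ) / 4 * 2 := mul_le_mul_of_nonneg_left hg (by positivity)
  linarith

/-! ## Numbers -/

/-- bound for time and advice -/
def T12 (n : ℕ) : ℕ := 2 ^ (n / 12)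
/-- length of the questions -/
def mq (n : ℕ) : ℕ := 2 * n + 2 * T12 n
/-- length of the questions of the trees -/
def lq (n : ℕ) : ℕ := mq n + 1
/-- weight of combinations -/
def bq (n : ℕ) : ℕ := 3 * (lq n + 2) ^ 2
/-- number of adversaries (exponent) -/
def aq (n : ℕ) : ℕ := 2 * T12 n + 2 * n + 4
/-- exponent of the failure probability -/
def eq12 (n : ℕ) : ℕ := aq n + n + 2
/-- length of the memory -/
def sq (n : ℕ) : ℕ := 2 * ((eq12 n + 1) * T12 n)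
/-- length of the cache -/
def gq (n : ℕ) : ℕ := 2 * bq n * (2 * ((eq12 n + 1) * T12 n))
/-- depth of the simulation -/
def dq (n : ℕ) : ℕ := T12 n + 4 * bq n * T12 n
/-- number of simulations (exponent) -/
def aq' (n : ℕ) : ℕ :=
  aq n + ((lq n + 2) * sq n + ((lq n + 2) * gq n + 2 * T12 n))
/-- largest size of a hitting set -/
def kq (n : ℕ) : ℕ := 2 ^ (n / 2 + 3)

theorem T12_ge {n : ℕ} (h : 120 ≤ n) : n + 10 ≤ T12 n := by
  have key : ∀ q : ℕ, 7 ≤ q → 12 * q + 22 ≤ 2 ^ q := by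
    intro q hq
    induction q, hq using Nat.le_induction with
    | base => norm_num
    | succ q hq ih => rw [pow_succ]; omega
  have h1 := key (n / 12) (by omega)
  unfold T12
  omega

theorem numq1 (n : ℕ) : 18 * 2 ^ n ≤ kq n ^ 2 := num5_a n

theorem bq_le {n : ℕ} (h : 120 ≤ n) : bq n ≤ 48 * T12 n ^ 2 := by
  have h1 := T12_ge h
  have h2 : lq n + 2 ≤ 4 * T12 n := by unfold lq mq; omega
  calc bq n = 3 * (lq n + 2) ^ 2 := rfl
    _ ≤ 3 * (4 * T12 n) ^ 2 := Nat.mul_le_mul_left _ (Nat.pow_le_pow_left h2 2)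
    _ = 48 * T12 n ^ 2 := by ring

theorem numq2 {n : ℕ} (h : 120 ≤ n) : aq' n + 2 * n + 3 ≤ kq n := by
  have h1 := T12_ge h
  set T := T12 n with hT
  have h2 : lq n + 2 ≤ 4 * T := by unfold lq mq; omega
  have hb := bq_le h
  have he : eq12 n + 1 ≤ 5 * T := by unfold eq12 aq; omega
  have hs : sq n ≤ 10 * T ^ 2 := by
    calc sq n = 2 * ((eq12 n + 1) * T) := rfl
      _ ≤ 2 * (5 * T * T) := Nat.mul_le_mul_left _ (Nat.mul_le_mul_right _ he)
      _ = 10 * T ^ 2 := by ring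
  have hg : gq n ≤ 960 * T ^ 4 := by
    calc gq n = 2 * bq n * sq n := rfl
      _ ≤ 2 * (48 * T ^ 2) * (10 * T ^ 2) :=
        Nat.mul_le_mul (Nat.mul_le_mul_left _ hb) hs
      _ = 960 * T ^ 4 := by ring
  have hT1 : 1 ≤ T := by omega
  have h3 : (lq n + 2) * sq n ≤ 40 * T ^ 3 := by
    calc (lq n + 2) * sq n ≤ 4 * T * (10 * T ^ 2) := Nat.mul_le_mul h2 hs
      _ = 40 * T ^ 3 := by ring
  have h4 : (lq n + 2) * gq n ≤ 3840 * T ^ 5 := by
    calc (lq n + 2) * gq n ≤ 4 * T * (960 * T ^ 4) := Nat.mul_le_mul h2 hg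
      _ = 3840 * T ^ 5 := by ring
  have h5 : T ^ 3 ≤ T ^ 5 := Nat.pow_le_pow_right hT1 (by norm_num)
  have h6 : T ≤ T ^ 5 := by
    calc T = T ^ 1 := (pow_one T).symm
      _ ≤ T ^ 5 := Nat.pow_le_pow_right hT1 (by norm_num)
  have h7 : aq' n + 2 * n + 3 ≤ 4096 * T ^ 5 := by
    have : aq n ≤ 4 * T := by unfold aq; omega
    unfold aq'
    omega
  refine h7.trans ?_
  have e : 4096 * T ^ 5 = 2 ^ (12 + 5 * (n / 12)) := by
    rw [hT, T12, ← pow_mul, pow_add]; norm_num [mul_comm]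
  rw [e, kq]
  exact Nat.pow_le_pow_right (by norm_num) (by omega)

theorem numq3 {n : ℕ} (h : 120 ≤ n) :
    2 * T12 n * (2 ^ n * (kq n * (dq n + 2)) + 2 ^ n * (kq n * (dq n + 2))) < 4 ^ n := by
  have h1 := T12_ge h
  set T := T12 n with hT
  have hb := bq_le h
  have hT1 : 1 ≤ T := by omega
  have hd : dq n + 2 ≤ 256 * T ^ 3 := by
    have e1 : 4 * bq n * T ≤ 192 * T ^ 3 := by
      calc 4 * bq n * T ≤ 4 * (48 * T ^ 2) * T :=
            Nat.mul_le_mul_right _ (Nat.mul_le_mul_left _ hb)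
        _ = 192 * T ^ 3 := by ring
    have e2 : T ≤ T ^ 3 := by
      calc T = T ^ 1 := (pow_one T).symm
        _ ≤ T ^ 3 := Nat.pow_le_pow_right hT1 (by norm_num)
    have e3 : dq n = T + 4 * bq n * T := rfl
    omega
  have h4 : (4 : ℕ) ^ n = 2 ^ (2 * n) := by rw [pow_mul]; norm_num
  have h5 : 2 ^ (2 * n - 1) < 2 ^ (2 * n) := Nat.pow_lt_pow_right (by norm_num) (by omega)
  rw [h4]
  refine lt_of_le_of_lt ?_ h5
  calc 2 * T * (2 ^ n * (kq n * (dq n + 2)) + 2 ^ n * (kq n * (dq n + 2)))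
      = 4 * T * 2 ^ n * kq n * (dq n + 2) := by ring
    _ ≤ 4 * T * 2 ^ n * kq n * (256 * T ^ 3) := Nat.mul_le_mul_left _ hd
    _ = 2 ^ (10 + 4 * (n / 12) + n + (n / 2 + 3)) := by
        rw [hT, T12, kq, pow_add, pow_add, pow_add, pow_add, mul_comm 4 (n / 12), pow_mul,
          show (2 : ℕ) ^ 10 = 1024 by norm_num]
        ring
    _ ≤ _ := Nat.pow_le_pow_right (by norm_num) (by omega)

end Pool.Agent.AEC
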