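import Pool.Agent.Lib_helper78.AEC.Notions
import Pool.Agent.Lib_helper78.ADV.Fin

/-!
# The negated form above every oracle, relative to closed oracles
-/

set_option autoImplicit false

namespace Pool.Agent.AEC

open Pool.Agent.CK Pool.Agent.RF Pool.Agent.CKP Pool.Agent.RO Pool.Agent.ADV

theorem par_congr {F : Finset (List Bool)} {O O' : Lang} (h : ∀ s ∈ F, O s = O' s) :
    par F O = par F O' := by
  unfold par
  have e : (F.filter fun s => O s = true) = F.filter fun s => O' s = true :=
    Finset.filter_congr fun s hs => by rw [h s hs]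
  rw [e]

/-! ## Fixed points of local operators -/

/-- the value at `x` only depends on the oracle at shorter strings -/
def Loc (F : Lang → Lang) : Prop :=
  ∀ (x : List Bool) (O O' : Lang), (∀ y : List Bool, y.length < x.length → O y = O' y) →
    F O x = F O' x

/-- the fixed point -/
def fixO (F : Lang → Lang) : Lang := fun x => F^[x.length + 1] (fun _ => false) x

theorem fix_iter {F : Lang → Lang} (hF : Loc F) (O O' : Lang) (t : ℕ) :
    ∀ x : List Bool, x.length < t → F^[t] O x = F^[t] O' x := by
  induction t with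
  | zero => intro x hx; omega
  | succ t ih =>
    intro x hx
    rw [Function.iterate_succ_apply', Function.iterate_succ_apply']
    exact hF x _ _ fun y hy => ih y (by omega)

theorem fix_at {F : Lang → Lang} (hF : Loc F) (x : List Bool) {N : ℕ} (h : x.length < N) :
    fixO F x = F^[N] (fun _ => false) x := by
  obtain ⟨k, rfl⟩ := Nat.exists_eq_add_of_lt h
  have e : x.length + k + 1 = (x.length + 1) + k := by ring
  rw [e, Function.iterate_add_apply]
  exact fix_iter hF _ _ _ x (Nat.lt_succ_self _)

theorem fixO_eq {F : Lang → Lang} (hF : Loc F) (x : List Bool) : fixO F x = F (fixO F) x := by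
  rw [fix_at hF x (N := x.length + 1) (Nat.lt_succ_self _), Function.iterate_succ_apply']
  exact hF x _ _ fun y hy => (fix_at hF y hy).symm

/-! ## The closed oracle with the code region -/

open Classical in
/-- the operator -/
noncomputable def opN (ext : List Bool → Finset (List Bool)) (en : ℕ → Fam) (g : ℕ → ℕ)
    (R O : Lang) : Lang
  | [] => false
  | [false] => false
  | false :: false :: s => R s
  | false :: true :: w => par (ext w) O
  | true :: x => decide (CodeN en g O x)

theorem opN_loc {ext : List Bool → Finset (List Bool)} (hext : Adm ext) (en : ℕ → Fam) (g : ℕ → ℕ)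
    (R : Lang) : Loc (opN ext en g R) := by
  intro x O O' h
  match x with
  | [] => rfl
  | [false] => rfl
  | false :: false :: s => rfl
  | false :: true :: w =>
    refine par_congr fun s hs => h s ?_
    have := hext w s hs
    simp only [List.length_cons]
    omega
  | true :: x =>
    have h1 : ∀ y : List Bool, y.length ≤ x.length → O y = O' y := fun y hy =>
      h y (by rw [List.length_cons]; omega)
    have h2 : CodeN en g O x ↔ CodeN en g O' x :=
      ⟨code_imp h1, code_imp (fun y hy => (h1 y hy).symm)⟩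
    exact decide_eq_decide.2 h2

/-- the closed oracle -/
noncomputable def OC (ext : List Bool → Finset (List Bool)) (en : ℕ → Fam) (g : ℕ → ℕ) (R : Lang) :
    Lang := fixO (opN ext en g R)

/-- its part `H` -/
noncomputable def HC (ext : List Bool → Finset (List Bool)) (en : ℕ → Fam) (g : ℕ → ℕ) (R : Lang) :
    Lang := fun x => OC ext en g R (true :: x)

section

variable {ext : List Bool → Finset (List Bool)} {en : ℕ → Fam} {g : ℕ → ℕ} {R : Lang}

theorem OC_clo (hext : Adm ext) : IsClo ext R (HC ext en g R) (OC ext en g R) where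
  nil := fixO_eq (opN_loc hext en g R) []
  one := fixO_eq (opN_loc hext en g R) [false]
  left s := fixO_eq (opN_loc hext en g R) (false :: false :: s)
  mid w := fixO_eq (opN_loc hext en g R) (false :: true :: w)
  right _ := rfl

theorem HC_iff (hext : Adm ext) (x : List Bool) :
    HC ext en g R x = true ↔ CodeN en g (OC ext en g R) x := by
  unfold HC OC
  rw [fixO_eq (opN_loc hext en g R)]
  simp [opN]

theorem adv_correctC (hext : Adm ext) {hg : StrictMono g} (n : ℕ)
    (x : List Bool) (hx : x.length ≤ n) :
    HC ext en g R x = advA (pairS x (adv (OC ext en g R) en g hg n)) := by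
  have key : HC ext en g R x = true ↔ advA (pairS x (adv (OC ext en g R) en g hg n)) = true := by
    unfold advA advB
    rw [HC_iff hext, fstS_pair, sndS_pair, adv_dec, List.any_eq_true]
    constructor
    · rintro ⟨j, m, k, h1, h2, h3, h4, h5⟩
      refine ⟨_, mem_tab.2 ⟨j, ⟨h3.trans (ix_mono hx), h2⟩, rfl⟩, ?_⟩
      exact (lookB_iff x (en j) _ _).2 ⟨⟨h3, (hiN_iff (ix_mono hx)).2 h5⟩, m, k, h1, h4⟩
    · rintro ⟨e, he, h⟩
      obtain ⟨j, ⟨h1, h2⟩, rfl⟩ := mem_tab.1 he
      obtain ⟨⟨h3, h4⟩, m, k, h5, h6⟩ := (lookB_iff x (en j) _ _).1 h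
      exact ⟨j, m, k, h5, h2, h3, h6, (hiN_iff (ix_mono hx)).1 h4⟩
  rw [Bool.eq_iff_iff]
  exact key

theorem easy_codeC (hext : Adm ext) {S : Th}
    (hS : ∀ σ : Fm, (OC ext en g R) (true :: false :: σ.enc) = true → Ax (OC ext en g R) S σ)
    (j : ℕ) (hg : (en j).Good) (ht : ∀ n, ((en j).at n).True (OC ext en g R)) :
    EasyProofs (OC ext en g R) S (en j).at := by
  refine easy_of (en j) (g j) (fun n => hS _ ?_)
  show HC ext en g R (false :: _) = true
  rw [HC_iff hext]
  have hx : padE (en j).2.1 (g j) n ≤
      (false :: (pad (padE (en j).2.1 (g j) n) ((en j).at n)).enc).length := by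
    rw [List.length_cons, pad_len]; omega
  refine ⟨j, padE (en j).2.1 (g j) n, n, rfl, hg, ix_lev (le_trans ?_ hx),
    ix_dep ((padE_dep _ _ _).trans hx), fun k _ => ht k⟩
  unfold padE
  exact Nat.le_add_left _ _

theorem code_okC (hext : Adm ext) (σ : Fm)
    (h : (OC ext en g R) (true :: false :: σ.enc) = true) : σ.Closed ∧ σ.True (OC ext en g R) := by
  have h1 : HC ext en g R (false :: σ.enc) = true := h
  rw [HC_iff hext] at h1
  obtain ⟨j, m, n, h2, h3, h4, h5, h6⟩ := h1
  have h7 : σ = pad m ((en j).at n) := by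
    refine (enc_inj (a := []) (b := []) ?_).1
    rw [List.append_nil, List.append_nil]
    exact (List.cons.inj h2).2
  subst h7
  refine ⟨(pad_closed m _).2 ?_, (pad_true _ m _).2 (h6 n h5)⟩
  intro i hi
  obtain ⟨h8, h9⟩ := fm_free_sb (num_has i n) _ hi
  exact h9 (h3.1 i h8)

end

/-- The negated form above every oracle, relative to an oracle that is closed under a given
extension scheme. -/
theorem finalC : ∃ A : Lang, InP (fun _ => false) A ∧
    ∀ ext : List Bool → Finset (List Bool), Adm ext →
    ∀ R : Lang, ∃ (H : Lang) (w : ℕ → List Bool) (O : Lang), IsClo ext R H O ∧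
      ((∀ n, (w n).length ≤ Nat.log 2 (Nat.log 2 n)) ∧
        ∀ (n : ℕ) (x : List Bool), x.length ≤ n → H x = A (pairS x (w n))) ∧
      (∃ B, Base O B ∧ ∀ σ, S12 σ → B σ) ∧
      ∀ B, Base O B → ∃ S, InT O B S ∧
        (∀ T, InT O B T → EasyProofs O S (RFN T)) ∧
        ∀ (i : ℕ) (φ : Fm), LocalFam i φ → (∀ j, φ.free j → j = i) →
          (∀ n, (φ.sb i (num n)).True O) → EasyProofs O S (fun n => φ.sb i (num n)) := by
  obtain ⟨en, hen⟩ := exists_en
  obtain ⟨g, hg, hg2⟩ := exists_g (fixS en)
  refine ⟨advA, advA_inP, fun ext hext R => ⟨HC ext en g R, adv (OC ext en g R) en g hg,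
    OC ext en g R, OC_clo hext, ⟨adv_len hg2, fun n x hx => adv_correctC hext n x hx⟩, ?_⟩⟩
  refine ⟨?_, fun B hB => ?_⟩
  · obtain ⟨B, hB, hS⟩ := base_all (OC ext en g R)
    exact ⟨B, hB.toBase, hS⟩
  · obtain ⟨S, hS, hax⟩ := adv_S hB (code_okC hext)
    have key : ∀ e : Fam, e.Good → (∀ n, (e.at n).True (OC ext en g R)) →
        EasyProofs (OC ext en g R) S e.at := by
      intro e he ht
      obtain ⟨j, rfl⟩ := hen e
      exact easy_codeC hext hax j he ht
    refine ⟨S, hS, fun T hT => ?_, fun i φ hl hf ht => ?_⟩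
    · have h1 := key _ (rfn_good T) (fun n => by
        unfold Fam.at
        rw [rfnF_sb]
        exact rfn_true hB hT n)
      have h2 : Fam.at (5, 2 * T.2 + 3, rfnF T) = RFN T := by
        funext n
        exact rfnF_sb T n
      rw [h2] at h1
      exact h1
    · obtain ⟨c, hc⟩ := good_of_local hl hf
      exact key (i, c, φ) hc ht

end Pool.Agent.AEC
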