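import Pool.Agent.Lib_helper74.CKF.Defs

/-!
# Oracles that are closed under an extension scheme
-/

set_option autoImplicit false

namespace Pool.Agent.AEC

open Pool.Agent.CK

/-- the parity of `O` on the finite set `F` -/
def par (F : Finset (List Bool)) (O : Lang) : Bool :=
  decide (Odd (F.filter fun s => O s = true).card)

/-- An extension scheme: it assigns to every string `w` a finite set of strings that are not longer
than `w`. -/
def Adm (ext : List Bool → Finset (List Bool)) : Prop := ∀ w, ∀ s ∈ ext w, s.length ≤ w.length

/-- `O` is the oracle with the parts `R` and `H` that is closed under the extension scheme `ext`: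
`00s` asks `R` about `s`, `1x` asks `H` about `x`, and `01w` asks for the parity of `O` itself on
`ext w`. -/
structure IsClo (ext : List Bool → Finset (List Bool)) (R H O : Lang) : Prop where
  nil : O [] = false
  one : O [false] = false
  left : ∀ s, O (false :: false :: s) = R s
  mid : ∀ w, O (false :: true :: w) = par (ext w) O
  right : ∀ x, O (true :: x) = H x

end Pool.Agent.AEC
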