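import Pool.Agent.Lib_helper57.AFF.Defs
import Pool.Agent.Lib_helper78.AEC.Notions

/-!
# Closed oracles are linear in their first part
-/

set_option autoImplicit false

namespace Pool.Agent.AEC

open Pool.Agent.CK

open Pool.Agent.AFF (Str)

/-! ## Recursion on the length -/

/-- the value at `x` only depends on the values at shorter strings -/
def LocG {β : Type} (F : (Str → β) → Str → β) : Prop :=
  ∀ (x : Str) (O O' : Str → β), (∀ y : Str, y.length < x.length → O y = O' y) → F O x = F O' x

/-- the fixed point -/
def fixG {β : Type} (d : β) (F : (Str → β) → Str → β) : Str → β :=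
  fun x => F^[x.length + 1] (fun _ => d) x

theorem fixG_iter {β : Type} {F : (Str → β) → Str → β} (hF : LocG F) (O O' : Str → β) (t : ℕ) :
    ∀ x : Str, x.length < t → F^[t] O x = F^[t] O' x := by
  induction t with
  | zero => intro x hx; omega
  | succ t ih =>
    intro x hx
    rw [Function.iterate_succ_apply', Function.iterate_succ_apply']
    exact hF x _ _ fun y hy => ih y (by omega)

theorem fixG_at {β : Type} (d : β) {F : (Str → β) → Str → β} (hF : LocG F) (x : Str) {N : ℕ}
    (h : x.length < N) : fixG d F x = F^[N] (fun _ => d) x := by
  obtain ⟨k, rfl⟩ := Nat.exists_eq_add_of_lt h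
  have e : x.length + k + 1 = (x.length + 1) + k := by ring
  rw [e, Function.iterate_add_apply]
  exact fixG_iter hF _ _ _ x (Nat.lt_succ_self _)

theorem fixG_eq {β : Type} (d : β) {F : (Str → β) → Str → β} (hF : LocG F) (x : Str) :
    fixG d F x = F (fixG d F) x := by
  rw [fixG_at d hF x (N := x.length + 1) (Nat.lt_succ_self _), Function.iterate_succ_apply']
  exact hF x _ _ fun y hy => (fixG_at d hF y hy).symm

/-! ## Closed oracles with given parts -/

/-- the operator of the closed oracle -/
def opC (ext : Str → Finset Str) (R H O : Lang) : Lang
  | [] => false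
  | [false] => false
  | false :: false :: s => R s
  | false :: true :: w => par (ext w) O
  | true :: x => H x

theorem par_congr' {F : Finset Str} {O O' : Lang} (h : ∀ s ∈ F, O s = O' s) :
    par F O = par F O' := by
  unfold par
  have e : (F.filter fun s => O s = true) = F.filter fun s => O' s = true :=
    Finset.filter_congr fun s hs => by rw [h s hs]
  rw [e]

theorem opC_loc {ext : Str → Finset Str} (hext : Adm ext) (R H : Lang) :
    LocG (opC ext R H) := by
  intro x O O' h
  match x with
  | [] => rfl
  | [false] => rfl
  | false :: false :: s => rfl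
  | false :: true :: w =>
    refine par_congr' fun s hs => h s ?_
    have := hext w s hs
    simp only [List.length_cons]
    omega
  | true :: x => rfl

theorem exists_clo {ext : Str → Finset Str} (hext : Adm ext) (R H : Lang) :
    ∃ O, IsClo ext R H O := by
  refine ⟨fixG false (opC ext R H), ?_, ?_, fun s => ?_, fun w => ?_, fun x => ?_⟩
  · exact fixG_eq false (opC_loc hext R H) []
  · exact fixG_eq false (opC_loc hext R H) [false]
  · exact fixG_eq false (opC_loc hext R H) (false :: false :: s)
  · exact fixG_eq false (opC_loc hext R H) (false :: true :: w)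
  · exact fixG_eq false (opC_loc hext R H) (true :: x)

/-- the closed oracle up to a given length only depends on its parts up to this length -/
theorem clo_congr {ext : Str → Finset Str} (hext : Adm ext) {R R' H H' O O' : Lang}
    (h : IsClo ext R H O) (h' : IsClo ext R' H' O') (N : ℕ)
    (hR : ∀ s : Str, s.length + 2 ≤ N → R s = R' s) (hH : ∀ s : Str, s.length + 1 ≤ N → H s = H' s) :
    ∀ s : Str, s.length ≤ N → O s = O' s := by
  intro s
  induction hn : s.length using Nat.strong_induction_on generalizing s with
  | _ n ih =>
    intro hN
    subst hn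
    match s with
    | [] => rw [h.nil, h'.nil]
    | [false] => rw [h.one, h'.one]
    | false :: false :: s => rw [h.left, h'.left, hR s hN]
    | false :: true :: w =>
      rw [h.mid, h'.mid]
      refine par_congr' fun x hx => ?_
      have hl := hext w x hx
      simp only [List.length_cons] at hN ih
      exact ih x.length (by omega) x rfl (by omega)
    | true :: x => rw [h.right, h'.right, hH x hN]

/-! ## Supports -/

open Classical in
/-- the operator for the supports -/
noncomputable def opT (ext : Str → Finset Str) (T : Str → Finset Str) : Str → Finset Str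
  | false :: false :: false :: w => {w}
  | false :: true :: u => ((ext u).biUnion T).filter fun w =>
      (∑ x ∈ ext u, if w ∈ T x then (1 : ZMod 2) else 0) = 1
  | _ => ∅

theorem opT_loc {ext : Str → Finset Str} (hext : Adm ext) : LocG (opT ext) := by
  intro x T T' h
  match x with
  | [] => rfl
  | [false] => rfl
  | [false, false] => rfl
  | false :: false :: false :: w => rfl
  | false :: false :: true :: w => rfl
  | false :: true :: u =>
    have h1 : ∀ s ∈ ext u, T s = T' s := fun s hs => h s (by
      have := hext u s hs
      simp only [List.length_cons]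
      omega)
    have h2 : (ext u).biUnion T = (ext u).biUnion T' := Finset.biUnion_congr rfl h1
    simp only [opT]
    rw [h2]
    refine Finset.filter_congr fun w _ => ?_
    have h3 : (∑ x ∈ ext u, if w ∈ T x then (1 : ZMod 2) else 0) =
        ∑ x ∈ ext u, if w ∈ T' x then (1 : ZMod 2) else 0 :=
      Finset.sum_congr rfl fun s hs => by rw [h1 s hs]
    rw [h3]
  | true :: x => rfl

/-- the supports of the queries: the positions of the free part whose parity enters the answer -/
noncomputable def TT (ext : Str → Finset Str) : Str → Finset Str := fixG ∅ (opT ext)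

section

variable {ext : Str → Finset Str}

theorem TT_nil (hext : Adm ext) : TT ext [] = ∅ := fixG_eq ∅ (opT_loc hext) []
theorem TT_one (hext : Adm ext) : TT ext [false] = ∅ := fixG_eq ∅ (opT_loc hext) [false]
theorem TT_two (hext : Adm ext) : TT ext [false, false] = ∅ :=
  fixG_eq ∅ (opT_loc hext) [false, false]
theorem TT_pos (hext : Adm ext) (w : Str) : TT ext (false :: false :: false :: w) = {w} :=
  fixG_eq ∅ (opT_loc hext) (false :: false :: false :: w)
theorem TT_r (hext : Adm ext) (w : Str) : TT ext (false :: false :: true :: w) = ∅ :=
  fixG_eq ∅ (opT_loc hext) (false :: false :: true :: w)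
theorem TT_h (hext : Adm ext) (w : Str) : TT ext (true :: w) = ∅ :=
  fixG_eq ∅ (opT_loc hext) (true :: w)

open Classical in
theorem TT_mid (hext : Adm ext) (u : Str) : TT ext (false :: true :: u) =
    ((ext u).biUnion (TT ext)).filter fun w =>
      (∑ x ∈ ext u, if w ∈ TT ext x then (1 : ZMod 2) else 0) = 1 :=
  fixG_eq ∅ (opT_loc hext) (false :: true :: u)

theorem TT_short (hext : Adm ext) : AFF.Short (TT ext) := by
  classical
  intro v
  induction hn : v.length using Nat.strong_induction_on generalizing v with
  | _ n ih =>
    intro w hw
    subst hn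
    match v with
    | [] => rw [TT_nil hext] at hw; simp at hw
    | [false] => rw [TT_one hext] at hw; simp at hw
    | [false, false] => rw [TT_two hext] at hw; simp at hw
    | false :: false :: false :: s =>
      rw [TT_pos hext, Finset.mem_singleton] at hw
      subst hw
      simp only [List.length_cons]
      omega
    | false :: false :: true :: s => rw [TT_r hext] at hw; simp at hw
    | false :: true :: u =>
      rw [TT_mid hext, Finset.mem_filter, Finset.mem_biUnion] at hw
      obtain ⟨⟨x, hx, hw⟩, -⟩ := hw
      have hl := hext u x hx
      have h1 := ih x.length (by simp only [List.length_cons]; omega) x rfl w hw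
      simp only [List.length_cons]
      omega
    | true :: s => rw [TT_h hext] at hw; simp at hw

theorem z2cases (a : ZMod 2) : a = 0 ∨ a = 1 := by
  fin_cases a
  · exact Or.inl rfl
  · exact Or.inr rfl

theorem b2_par (F : Finset Str) (O : Lang) : AFF.b2 (par F O) = ∑ s ∈ F, AFF.b2 (O s) := by
  have e : (∑ s ∈ F, AFF.b2 (O s)) = ((F.filter fun s => O s = true).card : ZMod 2) := by
    rw [Finset.card_filter, Nat.cast_sum]
    refine Finset.sum_congr rfl fun s _ => ?_
    unfold AFF.b2
    by_cases h : O s = true <;> simp [h]
  rw [e]
  unfold AFF.b2 par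
  by_cases h : Odd (F.filter fun s => O s = true).card
  · rw [decide_eq_true h, if_pos rfl]
    exact ((ZMod.natCast_eq_one_iff_odd).2 h).symm
  · rw [decide_eq_false h]
    simp only [Bool.false_eq_true, if_false]
    exact ((ZMod.natCast_eq_zero_iff_even).2 (Nat.not_odd_iff_even.1 h)).symm

theorem b2_inj {a b : Bool} (h : AFF.b2 a = AFF.b2 b) : a = b := by
  cases a <;> cases b <;> simp [AFF.b2] at h ⊢

theorem b2_Lam (T : Str → Finset Str) (A : Lang) (v : Str) :
    AFF.b2 (AFF.Lam T A v) = AFF.par A (T v) := by
  unfold AFF.Lam AFF.b2
  rcases z2cases (AFF.par A (T v)) with h | h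
  · rw [h]; simp
  · rw [h]; simp

/-- Closed oracles are linear in the first component of their first part. -/
theorem clo_lin (hext : Adm ext) {A R H O o : Lang} (h : IsClo ext (join A R) H O)
    (h0 : IsClo ext (join (fun _ => false) R) H o) (s : Str) :
    AFF.b2 (O s) = AFF.b2 (o s) + AFF.b2 (AFF.Lam (TT ext) A s) := by
  classical
  induction hn : s.length using Nat.strong_induction_on generalizing s with
  | _ n ih =>
    subst hn
    rw [b2_Lam]
    match s with
    | [] => rw [TT_nil hext, h.nil, h0.nil]; simp [AFF.par, AFF.b2]
    | [false] => rw [TT_one hext, h.one, h0.one]; simp [AFF.par, AFF.b2]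
    | [false, false] => rw [TT_two hext, h.left, h0.left]; simp [AFF.par, AFF.b2, join]
    | false :: false :: false :: w =>
      rw [TT_pos hext, h.left, h0.left]
      show AFF.b2 (A w) = 0 + AFF.par A {w}
      unfold AFF.par
      rw [Finset.sum_singleton, zero_add]
    | false :: false :: true :: w =>
      rw [TT_r hext, h.left, h0.left]
      simp [AFF.par, AFF.b2, join]
    | true :: w =>
      rw [TT_h hext, h.right, h0.right]
      simp [AFF.par]
    | false :: true :: u =>
      rw [h.mid, h0.mid, b2_par, b2_par]
      have h1 : ∀ x ∈ ext u, AFF.b2 (O x) = AFF.b2 (o x) + AFF.par A (TT ext x) := by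
        intro x hx
        have hl := hext u x hx
        rw [← b2_Lam]
        exact ih x.length (by simp only [List.length_cons]; omega) x rfl
      rw [Finset.sum_congr rfl h1, Finset.sum_add_distrib]
      congr 1
      set U := (ext u).biUnion (TT ext) with hU
      have h2 : ∀ x ∈ ext u, AFF.par A (TT ext x) =
          ∑ w ∈ U, (if w ∈ TT ext x then (1 : ZMod 2) else 0) * AFF.b2 (A w) := by
        intro x hx
        have hs : TT ext x ⊆ U := Finset.subset_biUnion_of_mem _ hx
        have e : U.filter (fun w => w ∈ TT ext x) = TT ext x := by
          ext w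
          rw [Finset.mem_filter]
          exact ⟨fun hh => hh.2, fun hh => ⟨hs hh, hh⟩⟩
        unfold AFF.par
        conv_lhs => rw [← e]
        rw [Finset.sum_filter]
        refine Finset.sum_congr rfl fun w _ => ?_
        split_ifs <;> simp
      rw [Finset.sum_congr rfl h2, Finset.sum_comm, TT_mid hext]
      unfold AFF.par
      rw [Finset.sum_filter]
      refine Finset.sum_congr rfl fun w _ => ?_
      rw [← Finset.sum_mul]
      rcases z2cases (∑ x ∈ ext u, if w ∈ TT ext x then (1 : ZMod 2) else 0) with h3 | h3
      · rw [h3]; simp
      · rw [h3]; simp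

end

end Pool.Agent.AEC
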