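import Pool.Agent.Lib_helper78.AEC.SecG
import Pool.Agent.Lib_helper74.CKF.ENUM

/-!
# Numbers for closed oracles
-/

set_option autoImplicit false

namespace Pool.Agent.AEC

open Pool.Agent.CK Pool.Agent.TD Pool.Agent.TPR

/-! ## Numerical conditions for the adversaries -/

theorem numG_of {τ κ : ℕ → ℕ} {n0 : ℕ}
    (h : ∀ n, n0 ≤ n → n + 10 ≤ 2 ^ τ n ∧ 10 + 5 * τ n + κ n ≤ n / 2) :
    NumG (fun n => 2 ^ τ n) (fun n => 2 ^ κ n) n0 := by
  have hb : ∀ n, n0 ≤ n → bqG (fun n => 2 ^ τ n) n ≤ 48 * (2 ^ τ n) ^ 2 := by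
    intro n hn
    obtain ⟨h1, -⟩ := h n hn
    have h2 : lqG (fun n => 2 ^ τ n) n + 2 ≤ 4 * 2 ^ τ n := by
      show 2 * n + 2 * 2 ^ τ n + 1 + 2 ≤ _
      omega
    calc bqG (fun n => 2 ^ τ n) n = 3 * (lqG (fun n => 2 ^ τ n) n + 2) ^ 2 := rfl
      _ ≤ 3 * (4 * 2 ^ τ n) ^ 2 := Nat.mul_le_mul_left _ (Nat.pow_le_pow_left h2 2)
      _ = 48 * (2 ^ τ n) ^ 2 := by ring
  refine ⟨fun n _ => Nat.two_pow_pos _, fun n hn => ?_, fun n hn => ?_, fun n hn => ?_⟩
  · obtain ⟨h1, h2⟩ := h n hn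
    have hb := hb n hn
    have hl : lqG (fun n => 2 ^ τ n) n + 2 ≤ 4 * 2 ^ τ n := by
      show 2 * n + 2 * 2 ^ τ n + 1 + 2 ≤ _
      omega
    have hm : mqG (fun n => 2 ^ τ n) n + 2 ≤ 4 * 2 ^ τ n := by
      show 2 * n + 2 * 2 ^ τ n + 2 ≤ _
      omega
    have hK : 1 ≤ 2 ^ κ n := Nat.one_le_two_pow
    generalize hTe : 2 ^ τ n = T at *
    generalize hKe : 2 ^ κ n = K at *
    have hTK : T ≤ T * K := Nat.le_mul_of_pos_right _ hK
    have ha : aqG (fun n => 2 ^ τ n) (fun n => 2 ^ κ n) n ≤ 8 * (T * K) := by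
      have e1 : (mqG (fun n => 2 ^ τ n) n + 2) * K ≤ 4 * (T * K) := by
        calc _ ≤ 4 * T * K := Nat.mul_le_mul_right _ hm
          _ = _ := by ring
      show 2 * 2 ^ τ n + 2 * n + 4 + (mqG (fun n => 2 ^ τ n) n + 2) * 2 ^ κ n ≤ _
      rw [hTe, hKe]
      omega
    have he : eqG (fun n => 2 ^ τ n) (fun n => 2 ^ κ n) n + 1 ≤ 9 * (T * K) := by
      unfold eqG; omega
    have hs : sqG (fun n => 2 ^ τ n) (fun n => 2 ^ κ n) n ≤ 18 * (T ^ 2 * K) := by
      show 2 * ((eqG (fun n => 2 ^ τ n) (fun n => 2 ^ κ n) n + 1) * 2 ^ τ n) ≤ _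
      rw [hTe]
      calc _ ≤ 2 * (9 * (T * K) * T) := Nat.mul_le_mul_left _ (Nat.mul_le_mul_right _ he)
        _ = _ := by ring
    have hg : gqG (fun n => 2 ^ τ n) (fun n => 2 ^ κ n) n ≤ 1728 * (T ^ 4 * K) := by
      show 2 * bqG (fun n => 2 ^ τ n) n * sqG (fun n => 2 ^ τ n) (fun n => 2 ^ κ n) n ≤ _
      calc _ ≤ 2 * (48 * T ^ 2) * (18 * (T ^ 2 * K)) :=
            Nat.mul_le_mul (Nat.mul_le_mul_left _ hb) hs
        _ = _ := by ring
    have h3 : (lqG (fun n => 2 ^ τ n) n + 2) * sqG (fun n => 2 ^ τ n) (fun n => 2 ^ κ n) n ≤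
        72 * (T ^ 3 * K) := by
      calc _ ≤ 4 * T * (18 * (T ^ 2 * K)) := Nat.mul_le_mul hl hs
        _ = _ := by ring
    have h4 : (lqG (fun n => 2 ^ τ n) n + 2) * gqG (fun n => 2 ^ τ n) (fun n => 2 ^ κ n) n ≤
        6912 * (T ^ 5 * K) := by
      calc _ ≤ 4 * T * (1728 * (T ^ 4 * K)) := Nat.mul_le_mul hl hg
        _ = _ := by ring
    have hT1 : 1 ≤ T := by omega
    have h5 : T ^ 3 * K ≤ T ^ 5 * K :=
      Nat.mul_le_mul_right _ (Nat.pow_le_pow_right hT1 (by norm_num))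
    have h6 : T * K ≤ T ^ 5 * K := Nat.mul_le_mul_right _ (by
      calc T = T ^ 1 := (pow_one T).symm
        _ ≤ T ^ 5 := Nat.pow_le_pow_right hT1 (by norm_num))
    have h7 : aqG' (fun n => 2 ^ τ n) (fun n => 2 ^ κ n) n + 2 * n + 3 ≤
        8192 * (T ^ 5 * K) := by
      show aqG (fun n => 2 ^ τ n) (fun n => 2 ^ κ n) n + ((lqG (fun n => 2 ^ τ n) n + 2) *
        sqG (fun n => 2 ^ τ n) (fun n => 2 ^ κ n) n + ((lqG (fun n => 2 ^ τ n) n + 2) *
        gqG (fun n => 2 ^ τ n) (fun n => 2 ^ κ n) n + 2 * 2 ^ τ n)) + 2 * n + 3 ≤ _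
      rw [hTe]
      omega
    refine h7.trans ?_
    have e : 8192 * (T ^ 5 * K) = 2 ^ (13 + 5 * τ n + κ n) := by
      rw [← hTe, ← hKe, ← pow_mul, pow_add, pow_add, mul_comm 5 (τ n)]
      norm_num
      ring
    rw [e, kq]
    exact Nat.pow_le_pow_right (by norm_num) (by omega)
  · obtain ⟨h1, h2⟩ := h n hn
    have hb := hb n hn
    have hτ : 4 ≤ τ n := by
      by_contra hc
      have : (2 : ℕ) ^ τ n ≤ 2 ^ 3 := Nat.pow_le_pow_right (by norm_num) (by omega)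
      omega
    generalize hTe : 2 ^ τ n = T at *
    have hT1 : 1 ≤ T := by omega
    have hd : dqG (fun n => 2 ^ τ n) n + 2 ≤ 256 * T ^ 3 := by
      have e1 : 4 * bqG (fun n => 2 ^ τ n) n * T ≤ 192 * T ^ 3 := by
        calc 4 * bqG (fun n => 2 ^ τ n) n * T ≤ 4 * (48 * T ^ 2) * T :=
              Nat.mul_le_mul_right _ (Nat.mul_le_mul_left _ hb)
          _ = 192 * T ^ 3 := by ring
      have e2 : T ≤ T ^ 3 := by
        calc T = T ^ 1 := (pow_one T).symm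
          _ ≤ T ^ 3 := Nat.pow_le_pow_right hT1 (by norm_num)
      show 2 ^ τ n + 4 * bqG (fun n => 2 ^ τ n) n * 2 ^ τ n + 2 ≤ _
      rw [hTe]
      omega
    have h4 : (4 : ℕ) ^ n = 2 ^ (2 * n) := by rw [pow_mul]; norm_num
    have h5 : 2 ^ (2 * n - 1) < 2 ^ (2 * n) := Nat.pow_lt_pow_right (by norm_num) (by omega)
    rw [h4]
    refine lt_of_le_of_lt ?_ h5
    calc 2 * T * (2 ^ n * (kq n * (dqG (fun n => 2 ^ τ n) n + 2)) +
          2 ^ n * (kq n * (dqG (fun n => 2 ^ τ n) n + 2)))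
        = 4 * T * 2 ^ n * kq n * (dqG (fun n => 2 ^ τ n) n + 2) := by ring
      _ ≤ 4 * T * 2 ^ n * kq n * (256 * T ^ 3) := Nat.mul_le_mul_left _ hd
      _ = 2 ^ (10 + 4 * τ n + n + (n / 2 + 3)) := by
          rw [← hTe, kq, pow_add, pow_add, pow_add, pow_add, mul_comm 4 (τ n), pow_mul,
            show (2 : ℕ) ^ 10 = 1024 by norm_num]
          ring
      _ ≤ _ := Nat.pow_le_pow_right (by norm_num) (by omega)
  · obtain ⟨h1, h2⟩ := h n hn
    refine (Nat.log_le_self _ _).trans ?_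
    have hm : mqG (fun n => 2 ^ τ n) n < 2 ^ (τ n + 3) := by
      have : (2 : ℕ) ^ (τ n + 3) = 8 * 2 ^ τ n := by rw [pow_add]; ring
      show 2 * n + 2 * 2 ^ τ n < _
      omega
    have h3 := Nat.log_lt_of_lt_pow (by
      have : 0 < 2 ^ τ n := Nat.two_pow_pos _
      show 2 * n + 2 * 2 ^ τ n ≠ 0
      omega) hm
    omega

theorem num12 : NumG (fun n => 2 ^ (n / 12)) (fun _ => 2 ^ 0) 120 :=
  numG_of (τ := fun n => n / 12) (κ := fun _ => 0) fun n hn => ⟨T12_ge hn, by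
    show 10 + 5 * (n / 12) + 0 ≤ n / 2
    omega⟩

theorem log_facts {n : ℕ} (h : 2 ^ 40 ≤ n) : 40 ≤ Nat.log 2 n ∧ n + 10 ≤ 2 ^ (n / Nat.log 2 n) ∧
    Nat.log 2 n ≤ n ∧ n / Nat.log 2 n * Nat.log 2 n ≤ n := by
  have hn0 : n ≠ 0 := by
    have := Nat.two_pow_pos 40
    omega
  have h1 : 40 ≤ Nat.log 2 n := Nat.le_log_of_pow_le (by norm_num) h
  have h2 : 2 ^ Nat.log 2 n ≤ n := Nat.pow_log_le_self 2 hn0
  have h3 : n < 2 ^ (Nat.log 2 n + 1) := Nat.lt_pow_succ_log_self (by norm_num) n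
  refine ⟨h1, ?_, Nat.log_le_self _ _, Nat.div_mul_le_self _ _⟩
  generalize Nat.log 2 n = l at *
  have h4 : ∀ l : ℕ, 40 ≤ l → 2 * l * l ≤ 2 ^ l := by
    intro l hl
    induction l, hl using Nat.le_induction with
    | base => norm_num
    | succ l hl ih =>
      have e : 2 * (l + 1) * (l + 1) ≤ 2 * (2 * l * l) := by nlinarith
      calc _ ≤ 2 * (2 * l * l) := e
        _ ≤ 2 * 2 ^ l := Nat.mul_le_mul_left _ ih
        _ = _ := by rw [pow_succ]; ring
  have h5 : 2 * l ≤ n / l := by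
    rw [Nat.le_div_iff_mul_le (by omega)]
    exact (h4 l h1).trans h2
  have h6 : (2 : ℕ) ^ (l + 1) + 10 ≤ 2 ^ (l + 2) := by
    have e : (2 : ℕ) ^ (l + 2) = 2 ^ (l + 1) + 2 ^ (l + 1) := by rw [pow_succ]; ring
    have : (2 : ℕ) ^ 4 ≤ 2 ^ (l + 1) := Nat.pow_le_pow_right (by norm_num) (by omega)
    omega
  calc n + 10 ≤ 2 ^ (l + 2) := by omega
    _ ≤ 2 ^ (n / l) := Nat.pow_le_pow_right (by norm_num) (by omega)

theorem div_mul_self_le (n b : ℕ) : n / b * b ≤ n := Nat.div_mul_le_self n b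

/-- A slowly growing function. -/
structure Slow (b : ℕ → ℕ) : Prop where
  mono : Monotone b
  log : ∀ n, b n ≤ Nat.log 2 n
  tends : Filter.Tendsto b Filter.atTop Filter.atTop

theorem exists_slow (β : ℕ → ℕ) (h : Filter.Tendsto β Filter.atTop Filter.atTop) :
    ∃ b, Slow b ∧ ∀ n, b n ≤ β n := by
  classical
  have hlog : Filter.Tendsto (fun n => Nat.log 2 n) Filter.atTop Filter.atTop := by
    refine Filter.tendsto_atTop.2 fun m => ?_
    filter_upwards [Filter.eventually_ge_atTop (2 ^ m)] with n hn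
    exact Nat.le_log_of_pow_le (by norm_num) hn
  refine ⟨fun n => sInf ((fun m => min (β m) (Nat.log 2 m)) '' {m | n ≤ m}), ⟨?_, ?_, ?_⟩, ?_⟩
  · intro n n' hnn
    have hne : ((fun m => min (β m) (Nat.log 2 m)) '' {m | n' ≤ m}).Nonempty :=
      ⟨_, Set.mem_image_of_mem _ (show n' ≤ n' from le_rfl)⟩
    obtain ⟨m, hm, he⟩ := Nat.sInf_mem hne
    show sInf _ ≤ sInf _
    rw [← he]
    exact Nat.sInf_le (Set.mem_image_of_mem _ (show n ≤ m from le_trans hnn hm))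
  · intro n
    exact (Nat.sInf_le (Set.mem_image_of_mem _ (show n ≤ n from le_rfl))).trans
      (min_le_right _ _)
  · refine Filter.tendsto_atTop.2 fun k => ?_
    obtain ⟨N, hN⟩ := Filter.eventually_atTop.1
      ((Filter.tendsto_atTop.1 h k).and (Filter.tendsto_atTop.1 hlog k))
    filter_upwards [Filter.eventually_ge_atTop N] with n hn
    have hne : ((fun m => min (β m) (Nat.log 2 m)) '' {m | n ≤ m}).Nonempty :=
      ⟨_, Set.mem_image_of_mem _ (show n ≤ n from le_rfl)⟩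
    obtain ⟨m, hm, he⟩ := Nat.sInf_mem hne
    rw [← he]
    have h1 := hN m (le_trans hn hm)
    exact le_min h1.1 h1.2
  · intro n
    exact (Nat.sInf_le (Set.mem_image_of_mem _ (show n ≤ n from le_rfl))).trans
      (min_le_left _ _)

theorem slow_facts {b : ℕ → ℕ} (hb : Slow b) {n : ℕ} (h : 2 ^ 40 ≤ n) (h40 : 40 ≤ b n) :
    n + 10 ≤ 2 ^ (n / b n) ∧ b n ≤ n ∧ n / b n * b n ≤ n ∧ 40 * (n / b n) ≤ n := by
  obtain ⟨h1, h2, h3, h4⟩ := log_facts h
  have h5 := hb.log n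
  refine ⟨h2.trans (Nat.pow_le_pow_right (by norm_num) (Nat.div_le_div_left h5 (by omega))),
    h5.trans h3, Nat.div_mul_le_self _ _, ?_⟩
  calc 40 * (n / b n) ≤ b n * (n / b n) := Nat.mul_le_mul_right _ h40
    _ = n / b n * b n := by ring
    _ ≤ n := Nat.div_mul_le_self _ _

theorem numSlow {b : ℕ → ℕ} (hb : Slow b) :
    ∃ n0, 2 ^ 40 ≤ n0 ∧ (∀ n, n0 ≤ n → 40 ≤ b n) ∧
      NumG (fun n => 2 ^ (n / b n)) (fun n => 2 ^ (n / 4)) n0 := by
  obtain ⟨N, hN⟩ := Filter.eventually_atTop.1 (Filter.tendsto_atTop.1 hb.tends 40)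
  refine ⟨max N (2 ^ 40), le_max_right _ _, fun n hn => hN n (le_trans (le_max_left _ _) hn),
    numG_of (τ := fun n => n / b n) (κ := fun n => n / 4) fun n hn => ?_⟩
  have hn40 : 2 ^ 40 ≤ n := le_trans (le_max_right _ _) hn
  obtain ⟨h1, h2, h3, h4⟩ := slow_facts hb hn40 (hN n (le_trans (le_max_left _ _) hn))
  refine ⟨h1, ?_⟩
  show 10 + 5 * (n / b n) + n / 4 ≤ n / 2
  have h6 : (2 : ℕ) ^ 40 = 1099511627776 := by norm_num
  omega

/-! ## Lengths of the stages -/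

section

variable (E : ℕ → ℕ)

/-- length of the inputs of the stage -/
def ni (i : ℕ) : ℕ := 2 ^ E i
/-- bound for the questions of the stage -/
def Li (i : ℕ) : ℕ := (ni E i + 2) ^ (i + 2)
/-- length of the advice -/
def ai (i : ℕ) : ℕ := Nat.log 2 (Nat.log 2 (Li E i))
/-- exponent -/
def li (i : ℕ) : ℕ := (E i + 1) * (i + 2)

/-- conditions for the lengths of the stages -/
structure EOK (b : ℕ → ℕ) : Prop where
  two : ∀ i, i + 2 ≤ E i
  big : ∀ i, 4 * li E i + 7 < 2 ^ E i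
  next : ∀ i, li E i ≤ E (i + 1)
  slow : ∀ i, 32 * (i + 2) ≤ b (E i)

end

theorem exists_E {b : ℕ → ℕ} (hb : Slow b) : ∃ E, EOK E b := by
  have hbig : ∀ i : ℕ, ∀ᶠ e : ℕ in Filter.atTop, 4 * ((e + 1) * (i + 2)) + 7 < 2 ^ e := by
    intro i
    filter_upwards [enum_pow 2, Filter.eventually_ge_atTop (8 * (i + 2))] with e he1 he2
    refine lt_of_lt_of_le ?_ he1
    nlinarith [Nat.zero_le i, Nat.zero_le e]
  have hall : ∀ i M : ℕ, ∃ e, M ≤ e ∧ i + 2 ≤ e ∧ 4 * ((e + 1) * (i + 2)) + 7 < 2 ^ e ∧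
      32 * (i + 2) ≤ b e := by
    intro i M
    exact ((Filter.eventually_ge_atTop M).and ((Filter.eventually_ge_atTop (i + 2)).and
      ((hbig i).and (Filter.tendsto_atTop.1 hb.tends (32 * (i + 2)))))).exists
  choose F hF1 hF2 hF3 hF4 using hall
  let E : ℕ → ℕ := fun i => Nat.rec (F 0 0) (fun i e => F (i + 1) ((e + 1) * (i + 2))) i
  have hE : ∀ i, ∃ M, E i = F i M := by
    intro i
    cases i with
    | zero => exact ⟨0, rfl⟩
    | succ i => exact ⟨_, rfl⟩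
  refine ⟨E, fun i => ?_, fun i => ?_, fun i => hF1 _ _, fun i => ?_⟩
  · obtain ⟨M, hM⟩ := hE i
    rw [hM]
    exact hF2 _ _
  · obtain ⟨M, hM⟩ := hE i
    unfold li
    rw [hM]
    exact hF3 _ _
  · obtain ⟨M, hM⟩ := hE i
    rw [hM]
    exact hF4 _ _

section

variable {E b : ℕ → ℕ}

theorem ni_two (h : EOK E b) (i : ℕ) : ni E i + 2 ≤ 2 ^ (E i + 1) := by
  have h1 := h.two i
  have h2 : 2 ^ 1 ≤ ni E i := Nat.pow_le_pow_right (by norm_num) (by omega)
  have h3 : (2 : ℕ) ^ (E i + 1) = 2 * ni E i := by rw [pow_succ, ni]; ring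
  omega

theorem Li_le (h : EOK E b) (i : ℕ) : Li E i ≤ 2 ^ li E i := by
  unfold Li li
  rw [pow_mul]
  exact Nat.pow_le_pow_left (ni_two h i) _

theorem F1 (_h : EOK E b) (i : ℕ) : 2 * ni E i + 3 < (ni E i + 2) ^ (i + 2) := by
  calc 2 * ni E i + 3 < (ni E i + 2) ^ 2 := by nlinarith [Nat.zero_le (ni E i)]
    _ ≤ _ := Nat.pow_le_pow_right (by omega) (by omega)

theorem logLi (h : EOK E b) (i : ℕ) : Nat.log 2 (Li E i) ≤ li E i := by
  have h1 := Li_le h i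
  have h2 : Li E i < 2 ^ (li E i + 1) := by
    rw [pow_succ]
    have : 0 < 2 ^ li E i := Nat.two_pow_pos _
    omega
  have h3 : Li E i ≠ 0 := by
    have := F1 h i
    unfold Li
    omega
  have := Nat.log_lt_of_lt_pow h3 h2
  omega

theorem F2 (h : EOK E b) (i : ℕ) : ai E i < ni E i := by
  have h1 : ai E i ≤ Nat.log 2 (Li E i) := Nat.log_le_self _ _
  have h2 := logLi h i
  have h3 := h.big i
  have h4 : ni E i = 2 ^ E i := rfl
  omega

variable (E) in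
/-- the advice words of the stage -/
noncomputable def Vi (i : ℕ) : Finset Str := (List.finite_length_le Bool (ai E i)).toFinset

theorem mem_Vi {i : ℕ} {v : Str} : v ∈ Vi E i ↔ v.length ≤ ai E i := by
  unfold Vi
  rw [Set.Finite.mem_toFinset]
  rfl

theorem Vi_card (h : EOK E b) (i : ℕ) : (Vi E i).card ≤ 2 * li E i := by
  have h1 : (Vi E i).card ≤ 2 ^ (ai E i + 1) := by
    have h := (card_str (ai E i)).2
    unfold Vi
    rw [← Set.ncard_eq_toFinset_card _ (List.finite_length_le Bool (ai E i))]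
    exact h
  have h2 : 2 ^ ai E i ≤ Nat.log 2 (Li E i) := by
    refine Nat.pow_log_le_self 2 ?_
    have h3 : 2 ^ 1 ≤ Li E i := by
      have := F1 h i
      unfold Li
      omega
    have := Nat.le_log_of_pow_le (by norm_num) h3
    omega
  have h3 := logLi h i
  rw [pow_succ] at h1
  omega

theorem F3 (h : EOK E b) (i : ℕ) : 2 * (3 * ((ni E i + 2) ^ (i + 2) + 2) ^ 2) *
    ((Vi E i).card * (ni E i + 2) ^ i) < 2 ^ ni E i := by
  have h1 : (ni E i + 2) ^ (i + 2) ≤ 2 ^ li E i := Li_le h i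
  have h2 : (ni E i + 2) ^ i ≤ 2 ^ li E i :=
    (Nat.pow_le_pow_right (by omega) (by omega)).trans h1
  have h3 := Vi_card h i
  have h4 : li E i < 2 ^ li E i := Nat.lt_two_pow_self
  have h5 : 4 * li E i + 7 < ni E i := h.big i
  have h6 : (ni E i + 2) ^ (i + 2) + 2 ≤ 2 ^ (li E i + 1) := by
    have hl : 1 ≤ li E i := by
      unfold li
      exact Nat.mul_pos (Nat.succ_pos _) (by omega)
    have : 2 ^ 1 ≤ 2 ^ li E i := Nat.pow_le_pow_right (by norm_num) hl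
    have e : (2 : ℕ) ^ (li E i + 1) = 2 * 2 ^ li E i := by rw [pow_succ]; ring
    omega
  calc 2 * (3 * ((ni E i + 2) ^ (i + 2) + 2) ^ 2) * ((Vi E i).card * (ni E i + 2) ^ i)
      ≤ 2 * (3 * (2 ^ (li E i + 1)) ^ 2) * (2 * 2 ^ li E i * 2 ^ li E i) := by
        refine Nat.mul_le_mul (Nat.mul_le_mul_left _ (Nat.mul_le_mul_left _
          (Nat.pow_le_pow_left h6 2))) (Nat.mul_le_mul ?_ h2)
        omega
    _ ≤ 2 ^ 3 * (2 ^ (li E i + 1)) ^ 2 * (2 * 2 ^ li E i * 2 ^ li E i) := by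
        refine Nat.mul_le_mul_right _ ?_
        rw [← mul_assoc]
        exact Nat.mul_le_mul_right _ (by norm_num)
    _ = 2 ^ (4 * li E i + 6) := by
        rw [← pow_mul, ← pow_add, ← pow_succ', ← pow_add, ← pow_add]
        congr 1
        ring
    _ < 2 ^ ni E i := Nat.pow_lt_pow_right (by norm_num) (by omega)

theorem F4 (h : EOK E b) (i : ℕ) : Li E i ≤ ni E (i + 1) :=
  (Li_le h i).trans (Nat.pow_le_pow_right (by norm_num) (h.next i))

theorem ni_lt_succ (h : EOK E b) (i : ℕ) : ni E i < ni E (i + 1) := by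
  have h1 := F4 h i
  have h2 := F1 h i
  have h4 : 2 * ni E i + 3 < Li E i := h2
  omega

theorem ni_lt (h : EOK E b) {i j : ℕ} (hij : i < j) : ni E i < ni E j :=
  strictMono_nat_of_lt_succ (ni_lt_succ h) hij

theorem ni_mono (h : EOK E b) {i j : ℕ} (hij : i ≤ j) : ni E i ≤ ni E j :=
  (strictMono_nat_of_lt_succ (ni_lt_succ h)).monotone hij

theorem ni_gt (h : EOK E b) (i : ℕ) : i < ni E i := by
  have h1 := h.two i
  have h2 : E i < ni E i := Nat.lt_two_pow_self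
  omega

/-- bound for the number of changes in a stage -/
theorem F5 (h : EOK E b) (i : ℕ) :
    (Vi E i).card + (Vi E i).card * (ni E i + 2) ^ i ≤ 2 ^ (2 * E i * (i + 2)) := by
  have h1 : (ni E i + 2) ^ i ≤ 2 ^ ((E i + 1) * i) := by
    rw [pow_mul]
    exact Nat.pow_le_pow_left (ni_two h i) _
  have h2 := Vi_card h i
  have h3 : li E i ≤ 2 ^ (E i + (i + 1)) := by
    unfold li
    rw [pow_add]
    refine Nat.mul_le_mul ?_ ?_
    · have : E i < 2 ^ E i := Nat.lt_two_pow_self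
      omega
    · have : i + 1 < 2 ^ (i + 1) := Nat.lt_two_pow_self
      omega
  have h4 : 1 ≤ (ni E i + 2) ^ i := Nat.one_le_pow _ _ (by omega)
  calc (Vi E i).card + (Vi E i).card * (ni E i + 2) ^ i
      = (Vi E i).card * (1 + (ni E i + 2) ^ i) := by ring
    _ ≤ 2 * li E i * (2 * (ni E i + 2) ^ i) := Nat.mul_le_mul h2 (by omega)
    _ = 4 * (li E i * (ni E i + 2) ^ i) := by ring
    _ ≤ 4 * (2 ^ (E i + (i + 1)) * 2 ^ ((E i + 1) * i)) :=
        Nat.mul_le_mul_left _ (Nat.mul_le_mul h3 h1)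
    _ = 2 ^ (2 + (E i + (i + 1) + (E i + 1) * i)) := by
        rw [← pow_add, pow_add 2 2]
        norm_num
    _ ≤ _ := by
        refine Nat.pow_le_pow_right (by norm_num) ?_
        have h5 : 2 ≤ E i := by
          have := h.two i
          omega
        nlinarith [Nat.zero_le i, Nat.zero_le (E i), Nat.mul_le_mul_right i h5]

/-- few changes are visible for adversaries of level `n` -/
theorem F6 (h : EOK E b) (hb : Slow b) {n : ℕ} (hn : 2 ^ 40 ≤ n) (h40 : 40 ≤ b n) {j : ℕ}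
    (hj : 2 * ni E j + 3 ≤ mqG (fun n => 2 ^ (n / b n)) n) :
    j < n ∧ 2 ^ (2 * E j * (j + 2)) ≤ 2 ^ (n / 8) := by
  obtain ⟨h1, h2, h3, h4⟩ := slow_facts hb hn h40
  have hj' : 2 * ni E j + 3 ≤ 2 * n + 2 * 2 ^ (n / b n) := hj
  have h5 : ni E j ≤ 2 ^ (n / b n + 1) := by rw [pow_succ]; omega
  have h6 : E j ≤ n / b n + 1 := by
    unfold ni at h5
    exact (Nat.pow_le_pow_iff_right (by norm_num)).1 h5
  have hn40 : (2 : ℕ) ^ 40 = 1099511627776 := by norm_num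
  have h8 : E j ≤ n := by omega
  have h9 : 32 * (j + 2) ≤ b n := (h.slow j).trans (hb.mono h8)
  refine ⟨by omega, Nat.pow_le_pow_right (by norm_num) ?_⟩
  have h10 : 32 * ((n / b n) * (j + 2)) ≤ n := by
    calc 32 * ((n / b n) * (j + 2)) = n / b n * (32 * (j + 2)) := by ring
      _ ≤ n / b n * b n := Nat.mul_le_mul_left _ h9
      _ ≤ n := h3
  have h11 : 2 * E j * (j + 2) ≤ 2 * ((n / b n) * (j + 2)) + 2 * (j + 2) := by
    calc 2 * E j * (j + 2) ≤ 2 * (n / b n + 1) * (j + 2) :=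
          Nat.mul_le_mul_right _ (Nat.mul_le_mul_left _ h6)
      _ = _ := by ring
  omega

end

theorem F7 {n : ℕ} (hn : 2 ^ 40 ≤ n) : n * 2 ^ (n / 8) ≤ 2 ^ (n / 4) := by
  have h1 : ∀ q : ℕ, 7 ≤ q → 8 * q + 7 ≤ 2 ^ q := by
    intro q hq
    induction q, hq using Nat.le_induction with
    | base => norm_num
    | succ q hq ih => rw [pow_succ]; omega
  have hn40 : (2 : ℕ) ^ 40 = 1099511627776 := by norm_num
  have h2 := h1 (n / 8) (by omega)
  calc n * 2 ^ (n / 8) ≤ 2 ^ (n / 8) * 2 ^ (n / 8) := Nat.mul_le_mul_right _ (by omega)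
    _ = 2 ^ (n / 8 + n / 8) := (pow_add _ _ _).symm
    _ ≤ _ := Nat.pow_le_pow_right (by norm_num) (by omega)

end Pool.Agent.AEC
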