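import Pool.Agent.Lib_helper78.AEC.Stage
import Pool.Agent.Lib_helper78.AEC.NumC

/-!
# Diagonalization against `NP`, relative to closed oracles
-/

set_option autoImplicit false

namespace Pool.Agent.AEC

open Pool.Agent.CK Pool.Agent.TD Pool.Agent.TPR Pool.Agent.ADV Pool.Agent.CKP

theorem exists_chain {α β : Type} (P : ℕ → α → Prop) (Q : ℕ → α → α → β → Prop) (a0 : α)
    (h0 : P 0 a0) (h : ∀ i a, P i a → ∃ a' b, P (i + 1) a' ∧ Q i a a' b) :
    ∃ (f : ℕ → α) (g : ℕ → β), f 0 = a0 ∧ ∀ i, Q i (f i) (f (i + 1)) (g i) := by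
  choose F G hF hQ using h
  let s : ∀ i, {a // P i a} := fun i =>
    Nat.rec ⟨a0, h0⟩ (fun i a => ⟨F i a.1 a.2, hF i a.1 a.2⟩) i
  exact ⟨fun i => (s i).1, fun i => G i (s i).1 (s i).2, rfl, fun i => hQ i (s i).1 (s i).2⟩

section

variable {ext : Str → Finset Str} {E b : ℕ → ℕ}

/-- the result of the stage `i` -/
def StQ (E : ℕ → ℕ) (ext : Str → Finset Str) (Pt : Lang) (o : Str → Lang) (i : ℕ) (a a' : Lang × Lang)
    (c : Finset Str × Finset Str) : Prop :=
  (∀ w, w ∉ c.1 → a'.1 w = a.1 w) ∧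
  (∀ w ∈ c.1, w.length = 2 * ni E i + 1 ∧ ∃ u, w = true :: u) ∧ c.1.card ≤ (Vi E i).card ∧
  (∀ w, w ∉ c.2 → a'.2 w = a.2 w) ∧ (∀ w ∈ c.2, 2 * ni E i + 1 ≤ w.length) ∧
  c.2.card ≤ (Vi E i).card * (ni E i + 2) ^ i ∧
  ∀ v ∈ Vi E i, (NL i (OV ext Pt (o v) a'.1 a'.2) (xv (ni E i) v) = true ↔
    ∃ y : Str, y.length = ni E i ∧ a'.1 (cl (ni E i) v y) = true)

/-- The diagonal language and the junk. -/
theorem chain (hE : EOK E b) (hext : Adm ext) {Pt : Lang} (hP : AFF.GenP (TT ext) Pt) (o : Str → Lang)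
    (X J : Lang) (hX : ∀ w, X (true :: w) = false) :
    ∃ (f : ℕ → Lang × Lang) (g : ℕ → Finset Str × Finset Str), f 0 = (X, J) ∧
      ∀ i, StQ E ext Pt o i (f i) (f (i + 1)) (g i) := by
  refine exists_chain (fun i a => ∀ j, i ≤ j → ∀ w : Str, w.length = 2 * ni E j →
    a.1 (true :: w) = false) (StQ E ext Pt o) (X, J) (fun j _ w _ => hX w) fun i a ha => ?_
  obtain ⟨X', J', C, D, h1, h2, h3, h4, h5, h6, h7⟩ := stage hext hP o a.1 a.2 (ni E i) i (F1 hE i)
    (Vi E i) (fun v hv => lt_of_le_of_lt (mem_Vi.1 hv) (F2 hE i)) (F3 hE i) (ha i le_rfl)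
  refine ⟨(X', J'), (C, D), fun j hj w hw => ?_, h1, h2, h3, h4, h5, h6, h7⟩
  show X' (true :: w) = false
  rw [h1 _ (by
    intro hC
    have h8 := (h2 _ hC).1
    rw [List.length_cons, hw] at h8
    have h9 := ni_lt hE (show i < j by omega)
    omega)]
  exact ha j (by omega) w hw

section

variable {Pt : Lang} {o : Str → Lang} {f : ℕ → Lang × Lang} {g : ℕ → Finset Str × Finset Str}

theorem stab (hE : EOK E b) (h : ∀ i, StQ E ext Pt o i (f i) (f (i + 1)) (g i)) (i : ℕ) (w : Str)
    (hw : w.length < 2 * ni E i + 1) (d : ℕ) :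
    (f (i + d)).1 w = (f i).1 w ∧ (f (i + d)).2 w = (f i).2 w := by
  induction d with
  | zero => exact ⟨rfl, rfl⟩
  | succ d ih =>
    have hm := ni_mono hE (show i ≤ i + d by omega)
    obtain ⟨h1, h2, -, h4, h5, -⟩ := h (i + d)
    constructor
    · rw [← ih.1]
      exact h1 w fun hC => by
        have := (h2 _ hC).1
        omega
    · rw [← ih.2]
      exact h4 w fun hC => by
        have := h5 _ hC
        omega

/-- the limits -/
def limX (f : ℕ → Lang × Lang) : Lang := fun w => (f w.length).1 w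
/-- the limits -/
def limJ (f : ℕ → Lang × Lang) : Lang := fun w => (f w.length).2 w

theorem lim_eq (hE : EOK E b) (h : ∀ i, StQ E ext Pt o i (f i) (f (i + 1)) (g i)) (i : ℕ) (w : Str)
    (hw : w.length < 2 * ni E i + 1) : limX f w = (f i).1 w ∧ limJ f w = (f i).2 w := by
  rcases le_total i w.length with hi | hi
  · obtain ⟨d, hd⟩ := Nat.exists_eq_add_of_le hi
    have h1 := stab hE h i w hw d
    rw [← hd] at h1
    exact h1
  · obtain ⟨d, hd⟩ := Nat.exists_eq_add_of_le hi
    have h1 := stab hE h w.length w (by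
      have := ni_gt hE w.length
      omega) d
    rw [← hd] at h1
    exact ⟨h1.1.symm, h1.2.symm⟩

theorem changes (h : ∀ i, StQ E ext Pt o i (f i) (f (i + 1)) (g i)) (i : ℕ) (w : Str) :
    (w ∉ (Finset.range i).biUnion (fun j => (g j).1) → (f i).1 w = (f 0).1 w) ∧
      (w ∉ (Finset.range i).biUnion (fun j => (g j).2) → (f i).2 w = (f 0).2 w) := by
  induction i with
  | zero => exact ⟨fun _ => rfl, fun _ => rfl⟩
  | succ i ih =>
    obtain ⟨h1, -, -, h4, -⟩ := h i
    rw [Finset.range_add_one, Finset.biUnion_insert, Finset.biUnion_insert, Finset.mem_union,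
      Finset.mem_union, not_or, not_or]
    exact ⟨fun hw => (h1 w hw.1).trans (ih.1 hw.2), fun hw => (h4 w hw.1).trans (ih.2 hw.2)⟩

/-- the changed cells -/
theorem lim_changes (h : ∀ i, StQ E ext Pt o i (f i) (f (i + 1)) (g i)) (w : Str) :
    (limX f w ≠ (f 0).1 w → ∃ j, w ∈ (g j).1 ∧ 2 * ni E j + 1 ≤ w.length) ∧
      (limJ f w ≠ (f 0).2 w → ∃ j, w ∈ (g j).2 ∧ 2 * ni E j + 1 ≤ w.length) := by
  constructor
  · intro hne
    by_contra hno
    push Not at hno
    apply hne
    refine (changes h w.length w).1 fun hmem => ?_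
    obtain ⟨j, -, hj⟩ := Finset.mem_biUnion.1 hmem
    have h1 := hno j hj
    have h2 := ((h j).2.1 w hj).1
    omega
  · intro hne
    by_contra hno
    push Not at hno
    apply hne
    refine (changes h w.length w).2 fun hmem => ?_
    obtain ⟨j, -, hj⟩ := Finset.mem_biUnion.1 hmem
    have h1 := hno j hj
    have h2 := (h j).2.2.2.2.1 w hj
    omega

/-- the machines are wrong -/
theorem lim_diag (hE : EOK E b) (hext : Adm ext) (h : ∀ i, StQ E ext Pt o i (f i) (f (i + 1)) (g i)) (i : ℕ)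
    (v : Str) (hv : v.length ≤ ai E i) :
    NL i (OV ext Pt (o v) (limX f) (limJ f)) (xv (ni E i) v) = true ↔
      ∃ y : Str, y.length = ni E i ∧ limX f (cl (ni E i) v y) = true := by
  have hvn : v.length < ni E i := lt_of_le_of_lt hv (F2 hE i)
  have h1 := (h i).2.2.2.2.2.2 v (mem_Vi.2 hv)
  have hlt : ni E i < ni E (i + 1) := ni_lt hE (Nat.lt_succ_self i)
  have e1 : NL i (OV ext Pt (o v) (limX f) (limJ f)) (xv (ni E i) v) =
      NL i (OV ext Pt (o v) (f (i + 1)).1 (f (i + 1)).2) (xv (ni E i) v) := by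
    apply NL_congr
    intro q hq
    rw [xv_len hvn] at hq
    have h2 := F4 hE i
    have h3 : q.length ≤ 2 * ni E (i + 1) + 3 := by
      have : Li E i = (ni E i + 2) ^ (i + 2) := rfl
      omega
    exact OV_congr hext Pt (o v) (fun w hw => (lim_eq hE h (i + 1) w (by omega)).1)
      (fun w hw => (lim_eq hE h (i + 1) w (by omega)).2) h3
  rw [e1, h1]
  constructor
  · rintro ⟨y, hy, hyX⟩
    refine ⟨y, hy, ?_⟩
    rw [(lim_eq hE h (i + 1) _ (by rw [cl_len hvn hy]; omega)).1]
    exact hyX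
  · rintro ⟨y, hy, hyX⟩
    refine ⟨y, hy, ?_⟩
    rw [(lim_eq hE h (i + 1) _ (by rw [cl_len hvn hy]; omega)).1] at hyX
    exact hyX

/-- few changes are visible -/
theorem lim_few (hE : EOK E b) (hb : Slow b)
    (h : ∀ i, StQ E ext Pt o i (f i) (f (i + 1)) (g i)) {n : ℕ} (hn : 2 ^ 40 ≤ n)
    (h40 : 40 ≤ b n) :
    ∃ D : Finset Str, D.card ≤ 2 ^ (n / 4) ∧
      (∀ w ∈ D, w.length ≤ mqG (fun n => 2 ^ (n / b n)) n) ∧
      ∀ w : Str, w.length ≤ mqG (fun n => 2 ^ (n / b n)) n →
        AFF.emb Pt (limX f) (limJ f) w = sx (AFF.emb Pt (f 0).1 (f 0).2) (dl D) w := by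
  classical
  set m := mqG (fun n => 2 ^ (n / b n)) n with hm
  set A := AFF.emb Pt (limX f) (limJ f) with hA
  set B := AFF.emb Pt (f 0).1 (f 0).2 with hB
  refine ⟨(List.finite_length_le Bool m).toFinset.filter fun w => A w ≠ B w, ?_, ?_, ?_⟩
  · have hsub : ((List.finite_length_le Bool m).toFinset.filter fun w => A w ≠ B w) ⊆
        ((Finset.range n).filter fun j => 2 * ni E j + 3 ≤ m).biUnion fun j =>
          (g j).1.image (fun u => false :: Pt u :: u) ∪
            (g j).2.image (fun u => false :: (!Pt u) :: u) := by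
      intro w hw
      rw [Finset.mem_filter, Set.Finite.mem_toFinset] at hw
      obtain ⟨hw1, hw2⟩ := hw
      have hw1 : w.length ≤ m := hw1
      match w, hw1, hw2 with
      | [], _, hw2 => exact absurd rfl hw2
      | true :: _, _, hw2 => exact absurd rfl hw2
      | [false], _, hw2 => exact absurd rfl hw2
      | false :: a :: u, hw1, hw2 =>
        simp only [List.length_cons] at hw1
        have hA1 : A (false :: a :: u) = if a = Pt u then limX f u else limJ f u := rfl
        have hB1 : B (false :: a :: u) = if a = Pt u then (f 0).1 u else (f 0).2 u := rfl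
        rw [hA1, hB1] at hw2
        by_cases hba : a = Pt u
        · rw [if_pos hba, if_pos hba] at hw2
          obtain ⟨j, hj, hj2⟩ := (lim_changes h u).1 hw2
          have h3 : 2 * ni E j + 3 ≤ m := by omega
          refine Finset.mem_biUnion.2 ⟨j, Finset.mem_filter.2
            ⟨Finset.mem_range.2 (F6 hE hb hn h40 h3).1, h3⟩, Finset.mem_union.2 (Or.inl ?_)⟩
          exact Finset.mem_image.2 ⟨u, hj, by rw [hba]⟩
        · rw [if_neg hba, if_neg hba] at hw2
          obtain ⟨j, hj, hj2⟩ := (lim_changes h u).2 hw2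
          have h3 : 2 * ni E j + 3 ≤ m := by omega
          refine Finset.mem_biUnion.2 ⟨j, Finset.mem_filter.2
            ⟨Finset.mem_range.2 (F6 hE hb hn h40 h3).1, h3⟩, Finset.mem_union.2 (Or.inr ?_)⟩
          refine Finset.mem_image.2 ⟨u, hj, ?_⟩
          have : a = !Pt u := by
            revert hba
            cases a <;> cases Pt u <;> simp
          rw [this]
    refine (Finset.card_le_card hsub).trans (Finset.card_biUnion_le.trans ?_)
    have h1 : ∀ j ∈ (Finset.range n).filter (fun j => 2 * ni E j + 3 ≤ m),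
        ((g j).1.image (fun u => false :: Pt u :: u) ∪
          (g j).2.image (fun u => false :: (!Pt u) :: u)).card ≤ 2 ^ (n / 8) := by
      intro j hj
      refine (Finset.card_union_le _ _).trans ?_
      refine (Nat.add_le_add Finset.card_image_le Finset.card_image_le).trans ?_
      obtain ⟨-, -, h3, -, -, h6, -⟩ := h j
      exact (Nat.add_le_add h3 h6).trans ((F5 hE j).trans (F6 hE hb hn h40 (Finset.mem_filter.1 hj).2).2)
    refine (Finset.sum_le_sum h1).trans ?_
    rw [Finset.sum_const, smul_eq_mul]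
    refine le_trans (Nat.mul_le_mul_right _ ?_) (F7 hn)
    exact (Finset.card_filter_le _ _).trans (Finset.card_range n).le
  · intro w hw
    exact (Set.Finite.mem_toFinset (List.finite_length_le Bool m)).1 (Finset.mem_filter.1 hw).1
  · intro w hw
    have h1 : dl ((List.finite_length_le Bool m).toFinset.filter fun w => A w ≠ B w) w =
        decide (A w ≠ B w) := by
      unfold dl
      congr 1
      rw [Finset.mem_filter, Set.Finite.mem_toFinset]
      exact propext ⟨fun hh => hh.2, fun hh => ⟨hw, hh⟩⟩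
    unfold sx
    rw [h1]
    cases A w <;> cases B w <;> simp

end

/-! ## The language -/

/-- the inputs with a witness -/
noncomputable def LW (X : Lang) : Lang := fun x =>
  @decide (∃ y : Str, y.length = x.length ∧ X (true :: (x ++ y)) = true) (Classical.dec _)

theorem LW_iff (X : Lang) (x : Str) :
    LW X x = true ↔ ∃ y : Str, y.length = x.length ∧ X (true :: (x ++ y)) = true := by
  unfold LW
  rw [@decide_eq_true_iff _ (Classical.dec _)]

theorem not_inNP (hE : EOK E b) (hext : Adm ext) {A0 R H O : Lang} {Pt : Lang} {o : Str → Lang}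
    {f : ℕ → Lang × Lang} {g : ℕ → Finset Str × Finset Str}
    (h : ∀ i, StQ E ext Pt o i (f i) (f (i + 1)) (g i))
    (ho : ∀ v, IsClo ext (join (fun _ => false) R) (fun y => A0 (pairS y v)) (o v))
    {w : ℕ → Str} (hw1 : ∀ n, (w n).length ≤ Nat.log 2 (Nat.log 2 n))
    (hw2 : ∀ (n : ℕ) (x : Str), x.length ≤ n → H x = A0 (pairS x (w n)))
    (hO : IsClo ext (join (AFF.emb Pt (limX f) (limJ f)) R) H O) :
    ¬ InNP O (fun x => !LW (limX f) x) := by
  intro hNP
  obtain ⟨i, hi⟩ := exists_NL hNP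
  have hv : (w (Li E i)).length ≤ ai E i := hw1 _
  have hvn : (w (Li E i)).length < ni E i := lt_of_le_of_lt hv (F2 hE i)
  obtain ⟨O', hO'⟩ := exists_clo hext (join (AFF.emb Pt (limX f) (limJ f)) R)
    (fun y => A0 (pairS y (w (Li E i))))
  have e1 : NL i O (xv (ni E i) (w (Li E i))) = NL i O' (xv (ni E i) (w (Li E i))) := by
    apply NL_congr
    intro q hq
    rw [xv_len hvn] at hq
    refine clo_congr hext hO hO' (Li E i) (fun _ _ => rfl) (fun s hs => hw2 _ s (by omega)) q ?_
    exact hq.le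
  have h1 := lim_diag hE hext h i (w (Li E i)) hv
  rw [← clo_OV hext hO' (ho _), ← e1, hi] at h1
  have h2 := LW_iff (limX f) (xv (ni E i) (w (Li E i)))
  rw [xv_len hvn] at h2
  have h3 : (∃ y : Str, y.length = ni E i ∧ limX f (cl (ni E i) (w (Li E i)) y) = true) ↔
      LW (limX f) (xv (ni E i) (w (Li E i))) = true := h2.symm
  rw [h3] at h1
  have h4 : ∀ b : Bool, ¬ ((!b) = true ↔ b = true) := by decide
  exact h4 _ h1

end

end Pool.Agent.AEC
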