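import Pool.Agent.Lib_helper78.AEC.MlDefs

/-!
# Multilinear extensions are given by an extension scheme
-/

set_option autoImplicit false

namespace Pool.Agent.AEC

open Pool.Agent.CK

theorem rep_inj {a b : ℕ} {x y : List Bool}
    (h : List.replicate a true ++ false :: x = List.replicate b true ++ false :: y) :
    a = b ∧ x = y := by
  induction a generalizing b with
  | zero =>
    cases b with
    | zero => simpa using h
    | succ b => simp [List.replicate_succ] at h
  | succ a ih =>
    cases b with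
    | zero => simp [List.replicate_succ] at h
    | succ b =>
      simp only [List.replicate_succ, List.cons_append, List.cons.injEq, true_and] at h
      obtain ⟨h1, h2⟩ := ih h
      exact ⟨by rw [h1], h2⟩

theorem flat_inj {d l : ℕ} (f g : Fin l → List Bool) (hf : ∀ j, (f j).length = d)
    (hg : ∀ j, (g j).length = d) (h : (List.ofFn f).flatten = (List.ofFn g).flatten) : f = g := by
  induction l with
  | zero => exact Subsingleton.elim _ _
  | succ l ih =>
    rw [List.ofFn_succ, List.ofFn_succ, List.flatten_cons, List.flatten_cons] at h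
    have h1 := List.append_inj h (by rw [hf, hg])
    have h2 := ih (fun j => f j.succ) (fun j => g j.succ) (fun j => hf _) (fun j => hg _) h1.2
    funext j
    refine Fin.cases h1.1 (fun j => ?_) j
    exact congrFun h2 j

theorem zmod2_cases (a : ZMod 2) : a = 0 ∨ a = 1 := by
  fin_cases a
  · exact Or.inl rfl
  · exact Or.inr rfl

theorem bits_inj (Φ : Fields) {l k : ℕ} (y y' : Fin l → Φ.K k)
    (h : (List.ofFn fun j => List.ofFn fun a => decide ((Φ.basis k).repr (y j) a = 1)).flatten =
      (List.ofFn fun j => List.ofFn fun a => decide ((Φ.basis k).repr (y' j) a = 1)).flatten) :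
    y = y' := by
  have h1 := flat_inj (d := Φ.d k) _ _ (fun j => List.length_ofFn) (fun j => List.length_ofFn) h
  funext j
  have h2 := List.ofFn_inj.1 (congrFun h1 j)
  apply (Φ.basis k).repr.injective
  ext a
  have h3 := congrFun h2 a
  have h4 : ((Φ.basis k).repr (y j) a = 1) ↔ ((Φ.basis k).repr (y' j) a = 1) :=
    decide_eq_decide.1 h3
  rcases zmod2_cases ((Φ.basis k).repr (y j) a) with h5 | h5 <;>
    rcases zmod2_cases ((Φ.basis k).repr (y' j) a) with h6 | h6
  · rw [h5, h6]
  · rw [h5, h6] at h4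
    exact absurd (h4.2 rfl) (by decide)
  · rw [h5, h6] at h4
    exact absurd (h4.1 rfl) (by decide)
  · rw [h5, h6]

/-- the scheme data: dimension, field, point, coordinate -/
def Pt (Φ : Fields) : Type := Σ (l k : ℕ), (Fin l → Φ.K k) × Fin (Φ.d k)

/-- the code of the data -/
noncomputable def cd (Φ : Fields) (p : Pt Φ) : List Bool := code Φ p.1 p.2.1 p.2.2.1 p.2.2.2

theorem cd_inj (Φ : Fields) : Function.Injective (cd Φ) := by
  rintro ⟨l, k, y, i⟩ ⟨l', k', y', i'⟩ h
  obtain ⟨rfl, h1⟩ := rep_inj h
  obtain ⟨rfl, h2⟩ := rep_inj h1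
  obtain ⟨h3, h4⟩ := rep_inj h2
  have h5 := bits_inj Φ y y' h4
  have h6 : i = i' := Fin.ext h3
  subst h5
  subst h6
  rfl

open Classical in
/-- the set of strings that belongs to the data -/
noncomputable def ptF (Φ : Fields) (p : Pt Φ) : Finset (List Bool) :=
  (Finset.univ.filter fun s : Fin p.1 → Bool =>
    (Φ.basis p.2.1).repr (∏ j, if s j = true then p.2.2.1 j else 1 - p.2.2.1 j) p.2.2.2 = 1).image
    List.ofFn

open Classical in
/-- the scheme -/
noncomputable def mlExt (Φ : Fields) (w : List Bool) : Finset (List Bool) :=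
  if h : ∃ p : Pt Φ, cd Φ p = w then ptF Φ h.choose else ∅

theorem mlExt_cd (Φ : Fields) (p : Pt Φ) : mlExt Φ (cd Φ p) = ptF Φ p := by
  have h : ∃ p' : Pt Φ, cd Φ p' = cd Φ p := ⟨p, rfl⟩
  unfold mlExt
  rw [dif_pos h, cd_inj Φ h.choose_spec]

theorem mlExt_adm (Φ : Fields) : Adm (mlExt Φ) := by
  intro w s hs
  by_cases h : ∃ p : Pt Φ, cd Φ p = w
  · obtain ⟨p, rfl⟩ := h
    rw [mlExt_cd] at hs
    obtain ⟨u, -, rfl⟩ := Finset.mem_image.1 hs
    rw [List.length_ofFn]
    unfold cd code
    simp only [List.length_append, List.length_replicate]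
    omega
  · unfold mlExt at hs
    rw [dif_neg h] at hs
    simp at hs

theorem odd_iff_cast (n : ℕ) : Odd n ↔ (n : ZMod 2) = 1 := by
  rw [← ZMod.natCast_eq_one_iff_odd]

/-- The parity of an oracle on the set of the scheme is a bit of its multilinear extension. -/
theorem par_mlExt (Φ : Fields) (O : Lang) (l k : ℕ) (y : Fin l → Φ.K k) (i : Fin (Φ.d k)) :
    par (mlExt Φ (code Φ l k y i)) O = decide ((Φ.basis k).repr (mle Φ O l k y) i = 1) := by
  classical
  have h1 : mlExt Φ (code Φ l k y i) = ptF Φ ⟨l, k, y, i⟩ := mlExt_cd Φ ⟨l, k, y, i⟩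
  rw [h1]
  unfold par
  refine decide_eq_decide.2 ?_
  rw [odd_iff_cast]
  set c : (Fin l → Bool) → Φ.K k := fun s => ∏ j, if s j = true then y j else 1 - y j with hc
  have hinj : Function.Injective (List.ofFn : (Fin l → Bool) → List Bool) := List.ofFn_injective
  have e1 : ((ptF Φ ⟨l, k, y, i⟩).filter fun s => O s = true).card =
      (Finset.univ.filter fun s : Fin l → Bool =>
        (Φ.basis k).repr (c s) i = 1 ∧ O (List.ofFn s) = true).card := by
    rw [ptF, Finset.filter_image, Finset.card_image_of_injective _ hinj, Finset.filter_filter]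
  have e2 : (Φ.basis k).repr (mle Φ O l k y) i =
      ∑ s : Fin l → Bool, if O (List.ofFn s) = true then (Φ.basis k).repr (c s) i else 0 := by
    unfold mle
    rw [map_sum, Finsupp.finsetSum_apply]
    refine Finset.sum_congr rfl fun s _ => ?_
    by_cases ho : O (List.ofFn s) = true
    · rw [if_pos ho, if_pos ho, one_mul]
    · rw [if_neg ho, if_neg ho, zero_mul, map_zero]
      rfl
  have e3 : ((((ptF Φ ⟨l, k, y, i⟩).filter fun s => O s = true).card : ℕ) : ZMod 2) =
      (Φ.basis k).repr (mle Φ O l k y) i := by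
    rw [e1, e2, Finset.card_filter, Nat.cast_sum]
    refine Finset.sum_congr rfl fun s _ => ?_
    rcases zmod2_cases ((Φ.basis k).repr (c s) i) with h5 | h5
    · by_cases ho : O (List.ofFn s) = true <;> simp [h5, ho]
    · by_cases ho : O (List.ofFn s) = true <;> simp [h5, ho]
  rw [e3]

theorem mlExt_empty (Φ : Fields) (w : List Bool)
    (h : ∀ (l k : ℕ) (y : Fin l → Φ.K k) (i : Fin (Φ.d k)), w ≠ code Φ l k y i) :
    mlExt Φ w = ∅ := by
  unfold mlExt
  rw [dif_neg]
  rintro ⟨⟨l, k, y, i⟩, hp⟩
  exact h l k y i hp.symm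

end Pool.Agent.AEC
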