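import Pool.Agent.Lib_helper78.AEC.TdpNP
import Pool.Agent.Lib_helper78.AEC.Ml
import Pool.Agent.Lib_helper78.AEC.Clo
import Pool.Agent.Lib_helper78.AEC.Closed

/-!
# The negated form above every oracle, relative to closed oracles
-/

set_option autoImplicit false

namespace Pool.Agent.AEC

open Pool.Agent.CK Pool.Agent.RF Pool.Agent.ADV Pool.Agent.TD

/-- the scheme of the parities and the multilinear extensions -/
noncomputable def cmb (ext : List Bool → Finset (List Bool)) (Φ : Fields) :
    List Bool → Finset (List Bool)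
  | [] => ∅
  | false :: w => ext w
  | true :: w => mlExt Φ w

theorem cmb_adm {ext : List Bool → Finset (List Bool)} (hext : Adm ext) (Φ : Fields) :
    Adm (cmb ext Φ) := by
  intro w s hs
  match w, hs with
  | [], hs => simp [cmb] at hs
  | false :: w, hs =>
    have := hext w s hs
    rw [List.length_cons]
    omega
  | true :: w, hs =>
    have := mlExt_adm Φ w s hs
    rw [List.length_cons]
    omega

theorem par_empty (O : Lang) : par ∅ O = false := by
  simp [par]

theorem closed_iff (ext : List Bool → Finset (List Bool)) (Φ : Fields) (R H O : Lang) :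
    ClosedOver ext Φ R H O ↔ IsClo (cmb ext Φ) R H O := by
  constructor
  · intro h
    refine ⟨h.rest _ (Or.inl rfl), h.rest _ (Or.inr (Or.inl rfl)), h.fst, fun w => ?_, h.snd⟩
    match w with
    | [] =>
      rw [h.rest _ (Or.inr (Or.inr (Or.inl rfl)))]
      exact (par_empty O).symm
    | false :: w => exact h.parity w
    | true :: w =>
      show _ = par (mlExt Φ w) O
      by_cases hc : ∀ (l k : ℕ) (y : Fin l → Φ.K k) (i : Fin (Φ.d k)), w ≠ code Φ l k y i
      · rw [h.rest _ (Or.inr (Or.inr (Or.inr ⟨w, rfl, hc⟩))), mlExt_empty Φ w hc, par_empty]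
      · push Not at hc
        obtain ⟨l, k, y, i, rfl⟩ := hc
        rw [par_mlExt]
        exact h.mlin l k y i
  · intro h
    refine ⟨h.left, h.right, fun w => h.mid (false :: w), fun l k y i => ?_, ?_⟩
    · rw [h.mid]
      exact par_mlExt Φ O l k y i
    · rintro s (rfl | rfl | rfl | ⟨w, rfl, hw⟩)
      · exact h.nil
      · exact h.one
      · rw [h.mid]
        exact par_empty O
      · rw [h.mid]
        show par (mlExt Φ w) O = false
        rw [mlExt_empty Φ w hw, par_empty]

/-- The main theorem. -/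
theorem mainAEC : ∃ A : Lang, InP (fun _ => false) A ∧
    ∀ (ext : List Bool → Finset (List Bool)) (Φ : Fields), Adm ext → ∀ R : Lang,
      (∃ (H : Lang) (w : ℕ → List Bool) (O : Lang), Advice A H w ∧ ClosedOver ext Φ R H O ∧
        (∃ B, Base O B ∧ ∀ σ, S12 σ → B σ) ∧
        ∀ B, Base O B → ∃ S, InT O B S ∧
          (∀ T, InT O B T → EasyProofs O S (RFN T)) ∧
          ∀ (i : ℕ) (φ : Fm), LocalFam i φ → (∀ j, φ.free j → j = i) →
            (∀ n, (φ.sb i (num n)).True O) → EasyProofs O S (fun n => φ.sb i (num n))) ∧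
      ∀ β : ℕ → ℕ, Filter.Tendsto β Filter.atTop Filter.atTop →
        ∃ (P : Lang) (G F K : List Bool → List Bool) (L : Lang),
          ∀ (H : Lang) (w : ℕ → List Bool) (O : Lang), Advice A H w →
            ClosedOver ext Φ (join P R) H O →
            TrapdoorPermutations O G F K ∧ Secure O G F (fun n => 2 ^ (n / β n)) ∧
              InNP O L ∧ ¬ InNP O (fun x => !L x) := by
  obtain ⟨A, hA, h⟩ := finalC
  refine ⟨A, hA, fun ext Φ hext R => ⟨?_, fun β hβ => ?_⟩⟩
  · obtain ⟨H, w, O, h1, ⟨h2, h3⟩, h4, h5⟩ := h (cmb ext Φ) (cmb_adm hext Φ) R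
    exact ⟨H, w, O, ⟨h2, h3⟩, (closed_iff ext Φ R H O).2 h1, h4, h5⟩
  · obtain ⟨P, G, F, K, L, hP⟩ := tdpNP (cmb_adm hext Φ) A R β hβ
    exact ⟨P, G, F, K, L, fun H w O hw hO =>
      hP H w O hw.short hw.dec ((closed_iff ext Φ _ H O).1 hO)⟩

end Pool.Agent.AEC
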