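import Pool.Agent.Lib_helper57.AFF.Conc
import Pool.Agent.Lib_helper20.MF.MLM
import Pool.Agent.Lib_helper20.MF.CSC
import Pool.Agent.Lib_helper20.MF.SOL
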