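import Pool.Agent.Lib_helper78.AEC.Notions

/-!
# Multilinear extensions over fields of characteristic two
-/

set_option autoImplicit false

namespace Pool.Agent.AEC

open Pool.Agent.CK

/-- Finite-dimensional field extensions of `ZMod 2` with bases (for instance all the fields
`GF(2^k)`). -/
structure Fields where
  K : ℕ → Type
  field : ∀ k, Field (K k)
  alg : ∀ k, Algebra (ZMod 2) (K k)
  d : ℕ → ℕ
  basis : ∀ k, Module.Basis (Fin (d k)) (ZMod 2) (K k)

attribute [instance] Fields.field Fields.alg

/-- The multilinear extension of `O` restricted to `{0,1}^l`, at the point `y` of `(K k)^l`. -/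
noncomputable def mle (Φ : Fields) (O : Lang) (l k : ℕ) (y : Fin l → Φ.K k) : Φ.K k :=
  ∑ s : Fin l → Bool, (if O (List.ofFn s) = true then 1 else 0) *
    ∏ j, if s j = true then y j else 1 - y j

/-- code of a dimension `l`, a field `K k`, a point `y` of `(K k)^l` and the number `i` of a
coordinate -/
noncomputable def code (Φ : Fields) (l k : ℕ) (y : Fin l → Φ.K k) (i : ℕ) : List Bool :=
  List.replicate l true ++ false :: (List.replicate k true ++ false ::
    (List.replicate i true ++ false ::
      (List.ofFn fun j => List.ofFn fun a => decide ((Φ.basis k).repr (y j) a = 1)).flatten))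

end Pool.Agent.AEC
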