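import Pool.Agent.Lib_helper78.AEC.Dec
import Pool.Agent.Lib_helper78.AEC.BaseG
import Pool.Agent.Lib_helper78.AEC.Imp
import Pool.Agent.Lib_helper82.TPR.Main

/-!
# Trapdoor permutations relative to closed oracles

Secrets `S` and junk `J` such that all programs of bounded time and advice are defeated relative to
all closed oracles above `(emb Pt (O0 S ⊕ ∅) J Δ D) ⊕ R`, for all small sets `D`.
-/

set_option autoImplicit false

namespace Pool.Agent.AEC

open Pool.Agent.CK Pool.Agent.TD Pool.Agent.TPR Pool.Agent.ADV Pool.Agent.CKP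

theorem part_congr {Ω : Type} [Fintype Ω] [DecidableEq Ω] (Λ : MSK.LS Ω) {O O' : Lang}
    (h : ∀ w, O (false :: w) = O' (false :: w)) (om : Ω → Bool) (v : Str) :
    Λ.part O om v = Λ.part O' om v := by
  unfold MSK.LS.part
  simp only [h]

theorem mix_zero (T : Str → Finset Str) (P O R : Lang) (v : Str) :
    AFF.mix T P 0 O R (true :: v) = false := by
  have e : ((T v).filter fun w => w.length < 0) = ∅ := by
    rw [Finset.filter_eq_empty_iff]
    intro w _
    omega
  show decide (AFF.par (AFF.emb P O R) ((T v).filter fun w => w.length < 0) = 1) = false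
  rw [e]
  simp [AFF.par]

/-- the language of the members of a finite set -/
def dl (D : Finset Str) : Lang := fun w => decide (w ∈ D)

/-- symmetric difference -/
def sx (A B : Lang) : Lang := fun w => xor (A w) (B w)

theorem par_sx (A B : Lang) (F : Finset Str) :
    AFF.par (sx A B) F = AFF.par A F + AFF.par B F := by
  unfold AFF.par sx
  rw [← Finset.sum_add_distrib]
  refine Finset.sum_congr rfl fun w _ => ?_
  have key : ∀ a b : Bool, AFF.b2 (xor a b) = AFF.b2 a + AFF.b2 b := by decide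
  exact key _ _

section

variable {ext : Str → Finset Str}

/-- linearity of closed oracles, with a difference -/
theorem clo_lin2 (hext : Adm ext) {A B R H O o : Lang} (h : IsClo ext (join (sx A B) R) H O)
    (h0 : IsClo ext (join B R) H o) (s : Str) :
    AFF.b2 (O s) = AFF.b2 (o s) + AFF.b2 (AFF.Lam (TT ext) A s) := by
  obtain ⟨z, hz⟩ := exists_clo hext (join (fun _ => false) R) H
  rw [clo_lin hext h hz s, clo_lin hext h0 hz s, b2_Lam, b2_Lam, b2_Lam, par_sx]
  ring

/-- the closed oracle as an upper oracle of the linear scheme -/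
theorem ans_true (hext : Adm ext) (Pt Os J0 R H o O B : Lang) (L : ℕ)
    (om : AFF.Cell 0 L → Bool) (ho : IsClo ext (join B R) H o)
    (hO : IsClo ext (join (sx (AFF.emb Pt Os (AFF.ovr 0 L J0 om)) B) R) H O) (s : Str)
    (hs : s.length ≤ L) :
    (AFF.ls (TT_short hext) Pt 0 L).ans (join Os o) om (true :: s) = O s := by
  have h1 := congrFun (AFF.ans_ls (TT_short hext) Pt Os J0 (Nat.zero_le L) om) (true :: s)
  rw [AFF.mix_full (TT_short hext) Pt Os _ hs] at h1
  have h2 : (AFF.ls (TT_short hext) Pt 0 L).ans (AFF.mix (TT ext) Pt 0 Os J0) om (true :: s) =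
      xor false (MSK.tb ((AFF.ls (TT_short hext) Pt 0 L).part (join Os o) om s)) := by
    show xor (AFF.mix (TT ext) Pt 0 Os J0 (true :: s)) _ = _
    rw [mix_zero, part_congr _ (O := AFF.mix (TT ext) Pt 0 Os J0) (O' := join Os o)
      (fun w => rfl)]
  rw [h2] at h1
  apply b2_inj
  rw [clo_lin2 hext hO ho s, ← h1]
  show AFF.b2 (xor (o s) (MSK.tb _)) = _
  have key : ∀ a b : Bool, AFF.b2 (xor a b) = AFF.b2 a + AFF.b2 (xor false b) := by decide
  exact key _ _

end

/-! ## Numbers -/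

/-- length of the questions -/
def mqG (T : ℕ → ℕ) (n : ℕ) : ℕ := 2 * n + 2 * T n
/-- length of the questions of the trees -/
def lqG (T : ℕ → ℕ) (n : ℕ) : ℕ := mqG T n + 1
/-- weight of combinations -/
def bqG (T : ℕ → ℕ) (n : ℕ) : ℕ := 3 * (lqG T n + 2) ^ 2
/-- number of adversaries (exponent) -/
def aqG (T K : ℕ → ℕ) (n : ℕ) : ℕ := 2 * T n + 2 * n + 4 + (mqG T n + 2) * K n
/-- exponent of the failure probability -/
def eqG (T K : ℕ → ℕ) (n : ℕ) : ℕ := aqG T K n + n + 2
/-- length of the memory -/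
def sqG (T K : ℕ → ℕ) (n : ℕ) : ℕ := 2 * ((eqG T K n + 1) * T n)
/-- length of the cache -/
def gqG (T K : ℕ → ℕ) (n : ℕ) : ℕ := 2 * bqG T n * (2 * ((eqG T K n + 1) * T n))
/-- depth of the simulation -/
def dqG (T : ℕ → ℕ) (n : ℕ) : ℕ := T n + 4 * bqG T n * T n
/-- number of simulations (exponent) -/
def aqG' (T K : ℕ → ℕ) (n : ℕ) : ℕ :=
  aqG T K n + ((lqG T n + 2) * sqG T K n + ((lqG T n + 2) * gqG T K n + 2 * T n))

/-- numerical conditions -/
structure NumG (T K : ℕ → ℕ) (n0 : ℕ) : Prop where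
  pos : ∀ n, n0 ≤ n → 0 < T n
  num2 : ∀ n, n0 ≤ n → aqG' T K n + 2 * n + 3 ≤ kq n
  num3 : ∀ n, n0 ≤ n →
    2 * T n * (2 ^ n * (kq n * (dqG T n + 2)) + 2 ^ n * (kq n * (dqG T n + 2))) < 4 ^ n
  log : ∀ n, n0 ≤ n → Nat.log 2 (Nat.log 2 (mqG T n)) ≤ n

/-! ## Adversaries -/

/-- the adversary given by a program -/
def advT (n : ℕ) (c : Cmd) (w : Str) (t : ℕ) : X (2 * n) → DT Str := fun x =>
  AFF.ren ((runTree t ([c], init x.1 w)).map fun cf => cf.2 0)

/-- the adversaries of level `n` -/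
def FS (T : ℕ → ℕ) (n : ℕ) : Set (X (2 * n) → DT Str) :=
  {A | ∃ c : Cmd, Encodable.encode c ≤ n ∧ ∃ w : Str, w.length ≤ T n ∧
    ∃ t ≤ T n, A = advT n c w t}

theorem FS_card (T : ℕ → ℕ) (n : ℕ) : CardBd (FS T n) (n + 1 + (T n + 1) + (T n + 1)) := by
  have hc := card_image (fun p : (ℕ × Str) × ℕ =>
      advT n ((Encodable.decode p.1.1 : Option Cmd).getD Cmd.skip) p.1.2 p.2)
      (card_prod (card_prod (card_nat n) (card_str (T n))) (card_nat (T n)))
  refine card_mono hc ?_ le_rfl
  rintro A ⟨c, hcn, w, hw, t, ht, rfl⟩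
  refine ⟨((Encodable.encode c, w), t), ⟨⟨hcn, hw⟩, ht⟩, ?_⟩
  simp only [Encodable.encodek, Option.getD_some]

theorem init_tree_q (T : ℕ → ℕ) (n : ℕ) (c : Cmd) (x : X (2 * n)) (w : Str)
    (hw : w.length ≤ T n) (t : ℕ) (ht : t ≤ T n) :
    (runTree t ([c], init x.1 w)).AllQ fun q => q.length < mqG T n := by
  unfold mqG
  refine mach_allQ_runTree t _ (2 * n + T n) (2 * n + 2 * T n)
    (mach_init_len x.1 w _ ?_ ?_) (by omega)
  · rw [x.2]; omega
  · omega

theorem advT_ok (T : ℕ → ℕ) (n : ℕ) (c : Cmd) (w : Str) (hw : w.length ≤ T n) (t : ℕ)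
    (ht : t ≤ T n) (x : X (2 * n)) :
    (advT n c w t x).depth ≤ T n ∧ (advT n c w t x).AllQ fun q => q.length ≤ lqG T n := by
  constructor
  · unfold advT
    rw [AFF.depth_ren, DT.depth_map]
    exact (mach_depth_runTree _ _).trans ht
  · unfold advT
    refine AFF.allQ_ren _ _ (mach_allQ_map _ _ _ ((init_tree_q T n c x w hw t ht).mono ?_))
    intro q hq
    show (true :: q).length ≤ lqG T n
    rw [List.length_cons]
    unfold lqG
    omega

/-- runs only see short strings -/
theorem run_congrG {O O' : Lang} (T : ℕ → ℕ) {n : ℕ} (c : Cmd) (x : X (2 * n)) (w : Str)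
    (hw : w.length ≤ T n) (t : ℕ) (ht : t ≤ T n)
    (h : ∀ q : Str, q.length ≤ mqG T n → O q = O' q) :
    run O c x.1 w t = run O' c x.1 w t := by
  unfold run
  rw [← mach_eval_runTree, ← mach_eval_runTree]
  exact DT.eval_congr _ _ (init_tree_q T n c x w hw t ht) fun q hq => h q hq.le

/-- index set of the further oracles of level `n` -/
def IX (T K : ℕ → ℕ) (n : ℕ) : Set (Str × Finset Str) :=
  {p | p.1.length ≤ n ∧ p.2.card ≤ K n ∧ ∀ w ∈ p.2, w.length ≤ mqG T n}

theorem IX_card (T K : ℕ → ℕ) (n : ℕ) :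
    CardBd (IX T K n) (n + 1 + (mqG T n + 2) * K n) := by
  classical
  have hc := card_image (fun p : Str × List Str => (p.1, p.2.toFinset))
    (card_prod (card_str n) (card_list (card_str (mqG T n)) (K n)))
  refine card_mono hc ?_ le_rfl
  rintro ⟨v, D⟩ ⟨h1, h2, h3⟩
  refine ⟨(v, D.toList), ⟨h1, ?_, ?_⟩, ?_⟩
  · show D.toList.length ≤ K n
    rw [Finset.length_toList]
    exact h2
  · intro w hw
    exact h3 w (Finset.mem_toList.1 hw)
  · simp

/-- the simulations with one of the further oracles -/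
noncomputable def FG (T K : ℕ → ℕ) {Ω : Type} [Fintype Ω] [DecidableEq Ω] (Λ : MSK.LS Ω)
    (oA : Str × Finset Str → Lang) (N : ℕ) : Fam := fun n =>
  {A'' | n ≤ N ∧ ∃ p ∈ IX T K n, ∃ A ∈ FS T n,
    ∃ A' ∈ Λ.SimC (lqG T n) (sqG T K n) (gqG T K n) (T n) (dqG T n) {A},
      A'' = fun x => hw (fun _ => false) (hw (oA p) (A' x))}

theorem FG_ok (T K : ℕ → ℕ) {Ω : Type} [Fintype Ω] [DecidableEq Ω] (Λ : MSK.LS Ω)
    (oA : Str × Finset Str → Lang) (N n : ℕ) : CardBd (FG T K Λ oA N n) (aqG' T K n) ∧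
      ∀ A ∈ FG T K Λ oA N n, ∀ x, (A x).depth ≤ dqG T n := by
  constructor
  · have hc := card_image (fun p : (Str × Finset Str) × (X (2 * n) → DT Str) => fun x =>
        hw (fun _ => false) (hw (oA p.1) (p.2 x)))
      (card_prod (IX_card T K n)
        (Λ.card_simC (lqG T n) (sqG T K n) (gqG T K n) (T n) (dqG T n) _ (FS T n)
          (FS_card T n)))
    refine card_mono hc ?_ ?_
    · rintro A'' ⟨-, v, hv, A, hA, A', ⟨A1, hA1, h1⟩, rfl⟩
      rw [Set.mem_singleton_iff] at hA1
      subst hA1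
      exact ⟨(v, A'), ⟨hv, ⟨A1, hA, h1⟩⟩, rfl⟩
    · unfold aqG' aqG
      omega
  · rintro A'' ⟨-, v, hv, A, hA, A', ⟨A1, hA1, ρ, hρ, γ, hγ, r, hr, hd, rfl⟩, rfl⟩ x
    exact (depth_hw _ _).trans ((depth_hw _ _).trans (hd x))

/-- the virtual oracle without further information -/
noncomputable def pX (S : Sec) : Lang := join (O0 S) fun _ => false

section

variable {ext : Str → Finset Str}

/-- Secrets and junk that defeat all adversaries up to a given level. -/
theorem horizon (hext : Adm ext) (A0 R Pt : Lang) (hP : AFF.GenP (TT ext) Pt) {T K : ℕ → ℕ}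
    {n0 : ℕ} (hN : NumG T K n0) (N : ℕ) :
    ∃ (S : Sec) (J : Lang), ∀ n, n0 ≤ n → n ≤ N → ∀ p ∈ IX T K n, ∀ O : Lang,
      IsClo ext (join (sx (AFF.emb Pt (pX S) J) (dl p.2)) R) (fun y => A0 (pairS y p.1)) O →
      ∀ c : Cmd, Encodable.encode c ≤ n → ∀ w : Str, w.length ≤ T n → ∀ t ≤ T n,
        T n * succ5 S O n c w t < 4 ^ n := by
  classical
  obtain ⟨L, hL⟩ : ∃ L, ∀ n ≤ N, mqG T n ≤ L :=
    ⟨(Finset.range (N + 1)).sup (mqG T), fun n hn =>
      Finset.le_sup (f := mqG T) (Finset.mem_range.2 (by omega))⟩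
  have hex := fun p : Str × Finset Str =>
    exists_clo hext (join (dl p.2) R) (fun y => A0 (pairS y p.1))
  choose oA hoA using hex
  obtain ⟨S, hS⟩ := baseG n0 (aqG' T K) (dqG T) kq (fun n => 2 * T n) (fun n _ => numq1 n)
    hN.num2 hN.num3 N
    (FG T K (AFF.ls (TT_short hext) Pt 0 L) oA N) (fun n _ => FG_ok T K _ oA N n)
    (fun n hn => by
      rw [Set.eq_empty_iff_forall_notMem]
      rintro A ⟨h1, _⟩
      omega)
  have hX : ∀ n, Fintype.card (X (2 * n)) = 4 ^ n := by
    intro n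
    rw [card_X_TD, pow_mul]
    norm_num
  have hmask : ∀ n, n0 ≤ n → n ≤ N → ∀ A ∈ FS T n, ∀ p ∈ IX T K n,
      2 ^ (aqG T K n + n + 2) * (Finset.univ.filter fun om : AFF.Cell 0 L → Bool =>
        4 ^ n ≤ T n * MSK.LS.hit (vv S n) A
          ((AFF.ls (TT_short hext) Pt 0 L).ans (join (pX S) (oA p)) om)).card <
        Fintype.card (AFF.Cell 0 L → Bool) := by
    intro n hn hnN A hA p hp
    obtain ⟨c, hc, w, hw, t, ht, rfl⟩ := hA
    have h1 := (AFF.ls (TT_short hext) Pt 0 L).mask_lemma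
      (AFF.gen_ls (TT_short hext) hP 0 L (lqG T n)) (join (pX S) (oA p)) (advT n c w t) (T n)
      (advT_ok T n c w hw t ht) (vv S n) (T n) (eqG T K n) (hN.pos n hn) (by
        intro A' hA'
        have h2 := hS n hn (fun x => TPR.hw (fun _ => false) (TPR.hw (oA p) (A' x)))
          ⟨hnN, p, hp, _, ⟨c, hc, w, hw, t, ht, rfl⟩, A', hA', rfl⟩
        rw [hX]
        refine lt_of_le_of_lt (le_of_eq ?_) h2
        unfold MSK.LS.hit hits
        congr 2
        apply Finset.filter_congr
        intro x _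
        rw [eval_hw, eval_hw]
        rfl)
    rw [hX] at h1
    exact h1
  obtain ⟨om, hom⟩ := MSK.exists_good (Γ := AFF.Cell 0 L → Bool) (N + 1)
    (ι := fun n => (X (2 * n) → DT Str) × (Str × Finset Str))
    (fun n => if n0 ≤ n then FS T n ×ˢ IX T K n else ∅) (aqG T K)
    (fun n _ => by
      by_cases hn : n0 ≤ n
      · simp only [if_pos hn]
        refine card_mono (card_prod (FS_card T n) (IX_card T K n)) (fun _ h => h) ?_
        unfold aqG
        omega
      · simp only [if_neg hn]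
        refine ⟨Set.finite_empty, ?_⟩
        rw [Set.ncard_empty]
        exact Nat.zero_le _)
    (fun n p => Finset.univ.filter fun om : AFF.Cell 0 L → Bool =>
        4 ^ n ≤ T n * MSK.LS.hit (vv S n) p.1
          ((AFF.ls (TT_short hext) Pt 0 L).ans (join (pX S) (oA p.2)) om))
    (fun n hn p hp => by
      by_cases hn' : n0 ≤ n
      · rw [if_pos hn'] at hp
        exact (hmask n hn' (by omega) p.1 hp.1 p.2 hp.2).le
      · rw [if_neg hn'] at hp
        exact absurd hp (Set.notMem_empty _))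
  refine ⟨S, AFF.ovr 0 L (fun _ => false) om, fun n hn hnN p hp O hO c hc w hw t ht => ?_⟩
  have h1 := hom n (by omega) (advT n c w t, p) (by
    rw [if_pos hn]
    exact ⟨⟨c, hc, w, hw, t, ht, rfl⟩, hp⟩)
  rw [Finset.mem_filter, not_and] at h1
  have h2 := not_le.1 (h1 (Finset.mem_univ _))
  refine lt_of_le_of_lt (le_of_eq ?_) h2
  congr 1
  unfold succ5 MSK.LS.hit
  congr 1
  apply Finset.filter_congr
  intro x _
  have e : (advT n c w t x).eval
      ((AFF.ls (TT_short hext) Pt 0 L).ans (join (pX S) (oA p)) om) =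
      (run O c x.1 w t).2 0 := by
    unfold advT
    rw [AFF.eval_ren, DT.eval_map]
    have e2 : (runTree t ([c], init x.1 w)).eval (fun s =>
        (AFF.ls (TT_short hext) Pt 0 L).ans (join (pX S) (oA p)) om (true :: s)) =
        (runTree t ([c], init x.1 w)).eval O := by
      refine DT.eval_congr _ _ (init_tree_q T n c x w hw t ht) fun q hq => ?_
      refine ans_true hext Pt (pX S) (fun _ => false) R _ (oA p) O _ L om (hoA p) hO q ?_
      exact hq.le.trans (hL n hnN)
    rw [e2, mach_eval_runTree]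
    rfl
  rw [e]

/-- Secrets and junk that defeat all adversaries. -/
theorem secretsG (hext : Adm ext) (A0 R Pt : Lang) (hP : AFF.GenP (TT ext) Pt) {T K : ℕ → ℕ}
    {n0 : ℕ} (hNum : NumG T K n0) :
    ∃ (S : Sec) (J : Lang), ∀ n, n0 ≤ n → ∀ p ∈ IX T K n, ∀ O : Lang,
      IsClo ext (join (sx (AFF.emb Pt (pX S) J) (dl p.2)) R) (fun y => A0 (pairS y p.1)) O →
      ∀ c : Cmd, Encodable.encode c ≤ n → ∀ w : Str, w.length ≤ T n → ∀ t ≤ T n,
        T n * succ5 S O n c w t < 4 ^ n := by
  choose Ss Js hSs using horizon hext A0 R Pt hP hNum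
  obtain ⟨S, Tab, -, hag⟩ := compactness Ss (fun N _ z => [Js N z])
    (fun N e z => Nat.one_le_pow _ _ (by omega))
  refine ⟨S, fun z => (Tab 0 z).headD false, fun n hn p hp O hO c hc u hu t ht => ?_⟩
  obtain ⟨N, hbN, hN, hT⟩ := hag (mqG T n)
  have hnN : n ≤ N := by
    have : n ≤ mqG T n := by unfold mqG; omega
    omega
  obtain ⟨O', hO'⟩ := exists_clo hext (join (sx (AFF.emb Pt (pX (Ss N)) (Js N)) (dl p.2)) R)
    (fun y => A0 (pairS y p.1))
  have h1 := hSs N n hn hnN p hp O' hO' c hc u hu t ht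
  have hag' : Agree (mqG T n) S (Ss N) (fun _ _ => []) (fun _ _ => []) :=
    ⟨hN, fun _ _ _ _ => rfl⟩
  have hXX : ∀ q : Str, q.length ≤ mqG T n → pX S q = pX (Ss N) q := by
    intro q hq
    match q with
    | [] => rfl
    | true :: q => rfl
    | false :: q =>
      simp only [List.length_cons] at hq
      exact orc_agree hag' q (by omega)
  have hOO : ∀ s : Str, s.length ≤ mqG T n → O s = O' s := by
    refine clo_congr hext hO hO' (mqG T n) (fun s hs => ?_) (fun s _ => rfl)
    match s with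
    | [] => rfl
    | true :: q => rfl
    | [false] => rfl
    | false :: true :: q => rfl
    | [false, false] => rfl
    | false :: false :: b :: q =>
      simp only [List.length_cons] at hs
      show xor (if b = Pt q then pX S q else (Tab 0 q).headD false) (dl p.2 (false :: b :: q)) =
        xor (if b = Pt q then pX (Ss N) q else Js N q) (dl p.2 (false :: b :: q))
      have e1 : pX S q = pX (Ss N) q := hXX q (by omega)
      have e2 : (Tab 0 q).headD false = Js N q := by
        rw [hT 0 (Nat.zero_le _) q (by omega)]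
        rfl
      rw [e1, e2]
  have e : succ5 S O n c u t = succ5 (Ss N) O' n c u t := by
    unfold succ5
    have hv : vv S n = vv (Ss N) n := agr_vv (hN n (by unfold mqG; omega)).2
    congr 1
    apply Finset.filter_congr
    intro x _
    rw [hv, run_congrG T c x u hu t ht hOO]
  rw [e]
  exact h1

/-- Security relative to closed oracles, for patches with few changes. -/
theorem secureG (hext : Adm ext) {A0 R Pt : Lang} {T K : ℕ → ℕ} {n0 : ℕ} (hNum : NumG T K n0)
    {S : Sec} {J : Lang} (hS : ∀ n, n0 ≤ n → ∀ p ∈ IX T K n, ∀ O : Lang,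
      IsClo ext (join (sx (AFF.emb Pt (pX S) J) (dl p.2)) R) (fun y => A0 (pairS y p.1)) O →
      ∀ c : Cmd, Encodable.encode c ≤ n → ∀ w : Str, w.length ≤ T n → ∀ t ≤ T n,
        T n * succ5 S O n c w t < 4 ^ n)
    {P : Lang} (hP : ∀ᶠ n in Filter.atTop, ∃ D : Finset Str, D.card ≤ K n ∧
      (∀ w ∈ D, w.length ≤ mqG T n) ∧
      ∀ w : Str, w.length ≤ mqG T n → P w = sx (AFF.emb Pt (pX S) J) (dl D) w)
    {H O : Lang} {w : ℕ → Str} (hw1 : ∀ n, (w n).length ≤ Nat.log 2 (Nat.log 2 n))
    (hw2 : ∀ (n : ℕ) (x : Str), x.length ≤ n → H x = A0 (pairS x (w n)))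
    (hO : IsClo ext (join P R) H O) : Secure O (GG S) (FF S) T := by
  intro c
  filter_upwards [hP, Filter.eventually_ge_atTop n0,
    Filter.eventually_ge_atTop (Encodable.encode c)] with n hD hn hc u hu t ht
  obtain ⟨D, hD1, hD2, hD3⟩ := hD
  obtain ⟨O', hO'⟩ := exists_clo hext (join (sx (AFF.emb Pt (pX S) J) (dl D)) R)
    (fun y => A0 (pairS y (w (mqG T n))))
  have h1 := hS n hn (w (mqG T n), D) ⟨(hw1 _).trans (hNum.log n hn), hD1, hD2⟩ O' hO' c hc
    u hu t ht
  have hOO : ∀ s : Str, s.length ≤ mqG T n → O s = O' s := by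
    refine clo_congr hext hO hO' (mqG T n) (fun s hs => ?_) (fun s hs => hw2 _ s (by omega))
    match s with
    | [] => rfl
    | true :: q => rfl
    | false :: q =>
      simp only [List.length_cons] at hs
      exact hD3 q (by omega)
  have e : succ5 S O n c u t = succ5 S O' n c u t := by
    unfold succ5
    congr 1
    apply Finset.filter_congr
    intro x _
    rw [run_congrG T c x u hu t ht hOO]
  rw [← e] at h1
  unfold succ5 at h1
  rw [← inversions_eq] at h1
  exact h1

end

end Pool.Agent.AEC
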