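import Pool.Agent.Lib_helper78.AEC.Imp

/-!
# Sparse solutions; questions on the path of a tree
-/

set_option autoImplicit false

namespace Pool.Agent.AEC

open Pool.Agent.CK

/-! ## Sparse solutions -/

section

variable {Ω : Type} [Fintype Ω] [DecidableEq Ω] (Λ : MSK.LS Ω)

theorem part_flip (O : Lang) (om : Ω → Bool) (D : Finset Ω) (v : List Bool) :
    Λ.part O (fun w => xor (om w) (decide (w ∈ D))) v = Λ.part O om v + ∑ w ∈ D, Λ.J v w := by
  unfold MSK.LS.part
  have e : ∀ w, MSK.bz (xor (om w) (decide (w ∈ D))) =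
      MSK.bz (om w) + if w ∈ D then 1 else 0 := by
    intro w
    have key : ∀ a b : Bool, MSK.bz (xor a b) = MSK.bz a + MSK.bz b := by decide
    rw [key]
    congr 1
    by_cases h : w ∈ D
    · simp [h, MSK.bz]
    · simp [h, MSK.bz]
  simp only [e, mul_add, Finset.sum_add_distrib]
  rw [← add_assoc]
  congr 1
  rw [← Finset.sum_filter_add_sum_filter_not Finset.univ (fun w => w ∈ D)]
  have h1 : (Finset.univ.filter fun w => w ∈ D) = D := by
    ext w
    simp
  rw [h1]
  have h2 : ∑ w ∈ Finset.univ.filter (fun w => w ∉ D),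
      Λ.J v w * (if w ∈ D then (1 : ZMod 2) else 0) = 0 := by
    refine Finset.sum_eq_zero fun w hw => ?_
    rw [if_neg (Finset.mem_filter.1 hw).2, mul_zero]
  rw [h2, add_zero]
  refine Finset.sum_congr rfl fun w hw => ?_
  rw [if_pos hw, mul_one]

/-- A solvable system has a solution which differs from a given pad in few cells. -/
theorem sol_sparse (O : Lang) (ρ : MSK.Mem) (h : (Λ.Sol O ρ).Nonempty) (om0 : Ω → Bool) :
    ∃ om ∈ Λ.Sol O ρ, (Finset.univ.filter fun w => om w ≠ om0 w).card ≤ ρ.length := by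
  obtain ⟨om, hom, hmin⟩ := Finset.exists_min_image (Λ.Sol O ρ)
    (fun om => (Finset.univ.filter fun w => om w ≠ om0 w).card) h
  refine ⟨om, hom, ?_⟩
  by_contra hlt
  rw [not_le] at hlt
  set U := Finset.univ.filter fun w => om w ≠ om0 w with hU
  have hc : Fintype.card (Fin ρ.length → ZMod 2) < Fintype.card {D // D ∈ U.powerset} := by
    rw [Fintype.card_coe, Finset.card_powerset, Fintype.card_fun, Fintype.card_fin, ZMod.card]
    exact Nat.pow_lt_pow_right (by norm_num) hlt
  obtain ⟨V, V', hne, he⟩ := Fintype.exists_ne_map_eq_of_card_lt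
    (fun V : {D // D ∈ U.powerset} => fun i : Fin ρ.length => ∑ w ∈ V.1, Λ.J (ρ.get i).1 w) hc
  set D := symmDiff V.1 V'.1 with hD
  have hDU : D ⊆ U := by
    intro w hw
    rw [hD, Finset.mem_symmDiff] at hw
    rcases hw with hw | hw
    · exact Finset.mem_powerset.1 V.2 hw.1
    · exact Finset.mem_powerset.1 V'.2 hw.1
  have hDne : D.Nonempty := by
    rw [Finset.nonempty_iff_ne_empty]
    intro h0
    apply hne
    apply Subtype.ext
    have : symmDiff V.1 V'.1 = ∅ := h0
    exact symmDiff_eq_bot.1 this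
  have hsum : ∀ q ∈ ρ, ∑ w ∈ D, Λ.J q.1 w = 0 := by
    intro q hq
    obtain ⟨i, rfl⟩ := List.get_of_mem hq
    have h1 := congrFun he i
    have h2 : ∑ w ∈ D, Λ.J (ρ.get i).1 w =
        ∑ w ∈ V.1, Λ.J (ρ.get i).1 w + ∑ w ∈ V'.1, Λ.J (ρ.get i).1 w := by
      have e1 : ∀ A B : Finset Ω, ∑ w ∈ A, Λ.J (ρ.get i).1 w =
          ∑ w ∈ A \ B, Λ.J (ρ.get i).1 w + ∑ w ∈ A ∩ B, Λ.J (ρ.get i).1 w := by
        intro A B
        rw [← Finset.sum_sdiff (Finset.inter_subset_left (s₁ := A) (s₂ := B)),
          Finset.sdiff_inter_self_left]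
      have e2 : D = (V.1 \ V'.1) ∪ (V'.1 \ V.1) := by
        rw [hD, symmDiff_def]
        rfl
      rw [e2, Finset.sum_union (by
        rw [Finset.disjoint_left]
        intro w hw hw'
        exact (Finset.mem_sdiff.1 hw').2 (Finset.mem_sdiff.1 hw).1), e1 V.1 V'.1, e1 V'.1 V.1,
        Finset.inter_comm V'.1 V.1]
      generalize ∑ w ∈ V.1 ∩ V'.1, Λ.J (ρ.get i).1 w = z
      have : z + z = 0 := CharTwo.add_self_eq_zero z
      linear_combination -this
    rw [h2]
    have h3 : ∑ w ∈ V.1, Λ.J (ρ.get i).1 w = ∑ w ∈ V'.1, Λ.J (ρ.get i).1 w := h1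
    rw [h3]
    exact CharTwo.add_self_eq_zero _
  have hmem : (fun w => xor (om w) (decide (w ∈ D))) ∈ Λ.Sol O ρ := by
    unfold MSK.LS.Sol at hom ⊢
    rw [Finset.mem_filter] at hom ⊢
    refine ⟨Finset.mem_univ _, fun q hq => ?_⟩
    rw [part_flip, hsum q hq, add_zero]
    exact hom.2 q hq
  have hlt2 : (Finset.univ.filter fun w => xor (om w) (decide (w ∈ D)) ≠ om0 w).card < U.card := by
    apply Finset.card_lt_card
    rw [Finset.ssubset_iff_of_subset]
    · obtain ⟨w, hw⟩ := hDne
      refine ⟨w, hDU hw, ?_⟩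
      have h1 := (Finset.mem_filter.1 (hDU hw)).2
      rw [Finset.mem_filter, not_and, not_not]
      intro _
      rw [decide_eq_true hw]
      revert h1
      cases om w <;> cases om0 w <;> simp
    · intro w hw
      rw [Finset.mem_filter] at hw
      by_cases hwD : w ∈ D
      · exact hDU hwD
      · have := hw.2
        rw [decide_eq_false hwD, Bool.xor_false] at this
        exact Finset.mem_filter.2 ⟨Finset.mem_univ _, this⟩
  exact absurd (hmin _ hmem) (not_le.2 hlt2)

end

/-! ## Questions on the path -/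

/-- the questions on the path of the tree for the oracle `O` -/
def qs {β : Type} (O : Lang) : DT β → List (List Bool)
  | DT.leaf _ => []
  | DT.node w n0 n1 => w :: (if O w = true then qs O n1 else qs O n0)

theorem eval_qs {β : Type} {O O' : Lang} (t : DT β) (h : ∀ w ∈ qs O t, O' w = O w) :
    t.eval O' = t.eval O := by
  induction t with
  | leaf b => rfl
  | node w n0 n1 h0 h1 =>
    have hw := h w (by simp [qs])
    rw [DT.eval_node, DT.eval_node, hw]
    by_cases ho : O w = true
    · rw [if_pos ho, if_pos ho]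
      refine h1 fun v hv => h v ?_
      simp only [qs, if_pos ho, List.mem_cons]
      exact Or.inr hv
    · rw [if_neg ho, if_neg ho]
      refine h0 fun v hv => h v ?_
      simp only [qs, if_neg ho, List.mem_cons]
      exact Or.inr hv

theorem qs_len {β : Type} (O : Lang) (t : DT β) : (qs O t).length ≤ t.depth := by
  induction t with
  | leaf b => exact le_rfl
  | node w n0 n1 h0 h1 =>
    rw [DT.depth_node]
    simp only [qs, List.length_cons]
    split_ifs <;> omega

theorem qs_allQ {β : Type} (O : Lang) {P : List Bool → Prop} (t : DT β) (h : t.AllQ P) :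
    ∀ w ∈ qs O t, P w := by
  induction t with
  | leaf b => intro w hw; simp [qs] at hw
  | node w n0 n1 h0 h1 =>
    intro v hv
    simp only [qs, List.mem_cons] at hv
    rcases hv with rfl | hv
    · exact h.1
    · split_ifs at hv
      · exact h1 h.2.2 v hv
      · exact h0 h.2.1 v hv

end Pool.Agent.AEC
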