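import Pool.Agent.Lib_helper78.AEC.SecG
import Pool.Agent.Lib_helper78.AEC.Sol

/-!
# One stage of the diagonalization against `NP`, relative to closed oracles
-/

set_option autoImplicit false

namespace Pool.Agent.AEC

open Pool.Agent.CK Pool.Agent.TD

section

variable {ext : Str → Finset Str}

/-- the closed oracle as a function of the virtual oracle and the junk -/
noncomputable def OV (ext : Str → Finset Str) (Pt o X J : Lang) : Lang := fun s =>
  xor (o s) (AFF.Lam (TT ext) (AFF.emb Pt X J) s)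

theorem clo_OV (hext : Adm ext) {Pt X J R H O o : Lang}
    (h : IsClo ext (join (AFF.emb Pt X J) R) H O) (h0 : IsClo ext (join (fun _ => false) R) H o) :
    O = OV ext Pt o X J := by
  funext s
  apply b2_inj
  rw [clo_lin hext h h0 s]
  unfold OV
  have key : ∀ a b : Bool, AFF.b2 (xor a b) = AFF.b2 a + AFF.b2 b := by decide
  rw [key]

theorem OV_congr (hext : Adm ext) (Pt o : Lang) {X X' J J' : Lang} {s : ℕ}
    (hX : ∀ w : Str, w.length + 2 < s → X w = X' w)
    (hJ : ∀ w : Str, w.length + 2 < s → J w = J' w) {v : Str} (hv : v.length ≤ s) :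
    OV ext Pt o X J v = OV ext Pt o X' J' v := by
  unfold OV
  rw [AFF.Lam_congr (TT_short hext) Pt hX hJ hv]

theorem OV_ls (hext : Adm ext) (Pt o X J : Lang) {s L : ℕ} (hs : s ≤ L) (X'' : Lang)
    (om : AFF.Cell s L → Bool) (hX : ∀ w : Str, w.length + 2 < s → X'' w = X w) (q : Str)
    (hq : q.length ≤ L) :
    OV ext Pt o X'' (AFF.ovr s L J om) q =
      xor (xor (o q) (AFF.mix (TT ext) Pt s X J (true :: q)))
        (MSK.tb ((AFF.ls (TT_short hext) Pt s L).part (join X'' fun _ => false) om q)) := by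
  have h1 := congrFun (AFF.ans_ls (TT_short hext) Pt X'' J hs om) (true :: q)
  rw [AFF.mix_full (TT_short hext) Pt X'' _ hq] at h1
  have h2 : (AFF.ls (TT_short hext) Pt s L).ans (AFF.mix (TT ext) Pt s X'' J) om (true :: q) =
      xor (AFF.mix (TT ext) Pt s X'' J (true :: q)) (MSK.tb
        ((AFF.ls (TT_short hext) Pt s L).part (join X'' fun _ => false) om q)) := by
    show xor _ _ = _
    rw [part_congr _ (O := AFF.mix (TT ext) Pt s X'' J) (O' := join X'' fun _ => false)
      (fun w => rfl)]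
  rw [h2, AFF.mix_congr (TT ext) Pt (O := X'') (O' := X) (R := J) (R' := J) hX
    (fun _ _ => rfl)] at h1
  unfold OV
  rw [← h1, Bool.xor_assoc]

end

/-! ## Inputs -/

/-- the input for the advice `v` -/
def xv (n : ℕ) (v : Str) : Str := List.replicate (n - v.length - 1) false ++ true :: v

theorem xv_len {n : ℕ} {v : Str} (h : v.length < n) : (xv n v).length = n := by
  unfold xv
  rw [List.length_append, List.length_replicate, List.length_cons]
  omega

theorem rep_injF (v v' : Str) : ∀ a b : ℕ, List.replicate a false ++ true :: v =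
    List.replicate b false ++ true :: v' → v = v'
  | 0, 0, h => by simpa using h
  | 0, b + 1, h => by simp [List.replicate_succ] at h
  | a + 1, 0, h => by simp [List.replicate_succ] at h
  | a + 1, b + 1, h => rep_injF v v' a b (by simpa [List.replicate_succ] using h)

theorem xv_inj {n : ℕ} {v v' : Str} (h : xv n v = xv n v') : v = v' := rep_injF _ _ _ _ h

/-- the cells of the input for the advice `v` -/
def cl (n : ℕ) (v y : Str) : Str := true :: (xv n v ++ y)

theorem cl_len {n : ℕ} {v y : Str} (h : v.length < n) (hy : y.length = n) :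
    (cl n v y).length = 2 * n + 1 := by
  unfold cl
  rw [List.length_cons, List.length_append, xv_len h, hy]
  omega

theorem cl_inj {n : ℕ} {v v' y y' : Str} (h : v.length < n) (h' : v'.length < n)
    (he : cl n v y = cl n v' y') : v = v' ∧ y = y' := by
  unfold cl at he
  have h1 := (List.cons.inj he).2
  have h2 := List.append_inj h1 (by rw [xv_len h, xv_len h'])
  exact ⟨xv_inj h2.1, h2.2⟩

/-! ## The tree of a machine -/

/-- the tree of the `i`-th machine with witness `y` -/
def mt (i : ℕ) (x y : Str) : DT Bool :=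
  (runTree ((x.length + 2) ^ ex i) ([prog i], init x y)).map fun cf =>
    cf.1.isEmpty && ((cf.2 0).head? == some true)

theorem eval_mt (i : ℕ) (x y : Str) (O : Lang) :
    (mt i x y).eval O = accB O (prog i) x y ((x.length + 2) ^ ex i) := by
  unfold mt
  rw [DT.eval_map, mach_eval_runTree]
  rfl

theorem depth_mt (i : ℕ) (x y : Str) : (mt i x y).depth ≤ (x.length + 2) ^ i := by
  unfold mt
  rw [DT.depth_map]
  exact (mach_depth_runTree _ _).trans
    (Nat.pow_le_pow_right (by omega) (Nat.unpair_right_le i))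

theorem allQ_mt (i : ℕ) (x y : Str) (hy : y.length ≤ (x.length + 2) ^ ex i) :
    (mt i x y).AllQ fun q => q.length < (x.length + 2) ^ (i + 2) := by
  have hk : ex i ≤ i := Nat.unpair_right_le i
  set n := x.length + 2 with hn
  have hn2 : 2 ≤ n := by omega
  have h1 : n ^ ex i ≤ n ^ i := Nat.pow_le_pow_right (by omega) hk
  have h0 : 1 ≤ n ^ i := Nat.one_le_pow _ _ (by omega)
  have h2 : n ^ (i + 2) = n ^ i * n * n := by ring
  have h3 : 2 * n ^ i ≤ n ^ i * n := by nlinarith
  have h4 : n ≤ n ^ i * n := by nlinarith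
  have h5 : 2 * (n ^ i * n) ≤ n ^ i * n * n := by nlinarith
  have hb : max x.length (n ^ ex i) + n ^ ex i ≤ n ^ (i + 2) := by
    have : max x.length (n ^ ex i) ≤ n ^ i * n := by
      apply max_le
      · omega
      · omega
    omega
  unfold mt
  apply mach_allQ_map
  rw [← hn]
  exact mach_allQ_runTree _ _ _ _
    (mach_init_len x y _ (le_max_left _ _) (hy.trans (le_max_right _ _))) hb

/-! ## The stage -/

section

variable {ext : Str → Finset Str}

/-- Some advice words are settled. -/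
def St (hext : Adm ext) (Pt : Lang) (o : Str → Lang) (X J : Lang) (n i : ℕ) (A : Finset Str) :
    Prop :=
  ∃ (C : Finset Str) (X' : Lang) (om : AFF.Cell (2 * n + 3) ((n + 2) ^ (i + 2)) → Bool)
    (ρ : MSK.Mem), C.card ≤ A.card ∧ (∀ w, w ∉ C → X' w = X w) ∧
    (∀ w ∈ C, ∃ v ∈ A, ∃ y : Str, y.length = n ∧ w = cl n v y) ∧
    (∀ v ∈ A, ∃ y : Str, y.length = n ∧ X' (cl n v y) = true) ∧
    ρ.length ≤ A.card * (n + 2) ^ i ∧ (∀ q ∈ ρ, q.1.length < (n + 2) ^ (i + 2)) ∧
    om ∈ (AFF.ls (TT_short hext) Pt (2 * n + 3) ((n + 2) ^ (i + 2))).Sol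
      (join X' fun _ => false) ρ ∧
    (Finset.univ.filter fun c => om c ≠ J c.1).card ≤ ρ.length ∧
    ∀ (X'' : Lang) (om'' : AFF.Cell (2 * n + 3) ((n + 2) ^ (i + 2)) → Bool),
      (∀ w : Str, w.length + 2 < 2 * n + 3 → X'' w = X w) →
      om'' ∈ (AFF.ls (TT_short hext) Pt (2 * n + 3) ((n + 2) ^ (i + 2))).Sol
        (join X'' fun _ => false) ρ →
      ∀ v ∈ A, NL i (OV ext Pt (o v) X''
        (AFF.ovr (2 * n + 3) ((n + 2) ^ (i + 2)) J om'')) (xv n v) = true

theorem St_empty (hext : Adm ext) (Pt : Lang) (o : Str → Lang) (X J : Lang) (n i : ℕ) :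
    St hext Pt o X J n i ∅ := by
  refine ⟨∅, X, fun c => J c.1, [], le_rfl, fun _ _ => rfl, ?_, ?_, Nat.zero_le _, ?_, ?_, ?_, ?_⟩
  · intro w hw
    exact absurd hw (Finset.notMem_empty _)
  · intro w hw
    exact absurd hw (Finset.notMem_empty _)
  · intro q hq
    simp at hq
  · unfold MSK.LS.Sol
    rw [Finset.mem_filter]
    refine ⟨Finset.mem_univ _, fun q hq => ?_⟩
    simp at hq
  · simp
  · intro X'' om'' _ _ v hv
    exact absurd hv (Finset.notMem_empty _)

theorem tb_bz (a : ZMod 2) : MSK.bz (MSK.tb a) = a := by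
  unfold MSK.bz MSK.tb
  rcases z2cases a with h | h
  · rw [h]; simp
  · rw [h]; simp

theorem St_step (hext : Adm ext) {Pt : Lang} (hP : AFF.GenP (TT ext) Pt) (o : Str → Lang)
    (X J : Lang) (n i : ℕ) (hnL : 2 * n + 3 < (n + 2) ^ (i + 2)) (V : Finset Str)
    (hV : ∀ v ∈ V, v.length < n)
    (hnum : 2 * (3 * ((n + 2) ^ (i + 2) + 2) ^ 2) * (V.card * (n + 2) ^ i) < 2 ^ n)
    (A : Finset Str) (hA : A ⊆ V) (v : Str) (hv : v ∈ V) (hvA : v ∉ A)
    (C : Finset Str) (X' : Lang) (om : AFF.Cell (2 * n + 3) ((n + 2) ^ (i + 2)) → Bool)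
    (ρ : MSK.Mem) (hC : C.card ≤ A.card) (hCX : ∀ w, w ∉ C → X' w = X w)
    (hCA : ∀ w ∈ C, ∃ v ∈ A, ∃ y : Str, y.length = n ∧ w = cl n v y)
    (hAX : ∀ v ∈ A, ∃ y : Str, y.length = n ∧ X' (cl n v y) = true)
    (hρ : ρ.length ≤ A.card * (n + 2) ^ i) (hρq : ∀ q ∈ ρ, q.1.length < (n + 2) ^ (i + 2))
    (hom : om ∈ (AFF.ls (TT_short hext) Pt (2 * n + 3) ((n + 2) ^ (i + 2))).Sol
      (join X' fun _ => false) ρ)
    (hpers : ∀ (X'' : Lang) (om'' : AFF.Cell (2 * n + 3) ((n + 2) ^ (i + 2)) → Bool),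
      (∀ w : Str, w.length + 2 < 2 * n + 3 → X'' w = X w) →
      om'' ∈ (AFF.ls (TT_short hext) Pt (2 * n + 3) ((n + 2) ^ (i + 2))).Sol
        (join X'' fun _ => false) ρ →
      ∀ v ∈ A, NL i (OV ext Pt (o v) X''
        (AFF.ovr (2 * n + 3) ((n + 2) ^ (i + 2)) J om'')) (xv n v) = true)
    (hacc : NL i (OV ext Pt (o v) X' (AFF.ovr (2 * n + 3) ((n + 2) ^ (i + 2)) J om))
      (xv n v) = true) :
    St hext Pt o X J n i (insert v A) := by
  classical
  set Λ := AFF.ls (TT_short hext) Pt (2 * n + 3) ((n + 2) ^ (i + 2)) with hΛ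
  have hvn := hV v hv
  have hxl := xv_len hvn
  -- the accepting path
  unfold NL at hacc
  rw [decide_eq_true_eq] at hacc
  obtain ⟨y0, hy0, hacc⟩ := hacc
  rw [← eval_mt] at hacc
  have hdep := depth_mt i (xv n v) y0
  have hall := allQ_mt i (xv n v) y0 hy0
  rw [hxl] at hdep hall
  set O1 := OV ext Pt (o v) X' (AFF.ovr (2 * n + 3) ((n + 2) ^ (i + 2)) J om) with hO1
  set K := qs O1 (mt i (xv n v) y0) with hK
  have hKlen : K.length ≤ (n + 2) ^ i := (qs_len _ _).trans hdep
  have hKq : ∀ q ∈ K, q.length < ((n + 2) ^ (i + 2)) := qs_allQ O1 _ hall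
  set ρ' : MSK.Mem := (K.map fun q => (q, MSK.tb (Λ.part (join X' fun _ => false) om q))) ++ ρ
    with hρ'
  have hρ'len : ρ'.length ≤ (A.card + 1) * (n + 2) ^ i := by
    rw [hρ', List.length_append, List.length_map, Nat.add_mul, Nat.one_mul]
    omega
  have hρ'q : ∀ q ∈ ρ', q.1.length < ((n + 2) ^ (i + 2)) := by
    intro q hq
    rw [hρ', List.mem_append, List.mem_map] at hq
    rcases hq with ⟨w, hw, rfl⟩ | hq
    · exact hKq w hw
    · exact hρq q hq
  have hcard : (insert v A).card = A.card + 1 := Finset.card_insert_of_notMem hvA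
  have hins : insert v A ⊆ V := Finset.insert_subset hv hA
  have hcardV : A.card + 1 ≤ V.card := by
    rw [← hcard]
    exact Finset.card_le_card hins
  have hsol' : om ∈ Λ.Sol (join X' fun _ => false) ρ' := by
    unfold MSK.LS.Sol at hom ⊢
    rw [Finset.mem_filter] at hom ⊢
    refine ⟨Finset.mem_univ _, fun q hq => ?_⟩
    rw [hρ', List.mem_append, List.mem_map] at hq
    rcases hq with ⟨w, hw, rfl⟩ | hq
    · exact (tb_bz _).symm
    · exact hom.2 q hq
  -- a free cell
  have hkeys : (MSK.keys ρ').card ≤ ρ'.length := by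
    unfold MSK.keys
    refine (List.toFinset_card_le _).trans ?_
    rw [List.length_map]
  have hW : (Λ.W (MSK.keys ρ')).card < 2 ^ n := by
    have h1 := Λ.W_card (AFF.gen_ls (TT_short hext) hP (2 * n + 3) ((n + 2) ^ (i + 2)) ((n + 2) ^ (i + 2))) (MSK.keys ρ') (fun u hu => by
      unfold MSK.keys at hu
      rw [List.mem_toFinset, List.mem_map] at hu
      obtain ⟨q, hq, rfl⟩ := hu
      exact hρ'q q hq)
    refine lt_of_le_of_lt (h1.trans (Nat.mul_le_mul_left _ ?_)) hnum
    exact hkeys.trans (hρ'len.trans (Nat.mul_le_mul_right _ hcardV))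
  have hcell : ∀ y : Str, y.length = n → AFF.inC (2 * n + 3) ((n + 2) ^ (i + 2)) (cl n v y) := by
    intro y hy
    unfold AFF.inC
    rw [cl_len hvn hy]
    omega
  obtain ⟨y1, hy1, hy1W⟩ : ∃ (y : Str) (hy : y.length = n),
      (⟨cl n v y, hcell y hy⟩ : AFF.Cell (2 * n + 3) ((n + 2) ^ (i + 2))) ∉ Λ.W (MSK.keys ρ') := by
    by_contra hno
    push Not at hno
    have h1 : Fintype.card (CK.X n) ≤ (Λ.W (MSK.keys ρ')).card := by
      rw [← Fintype.card_coe]
      refine Fintype.card_le_of_injective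
        (fun y : CK.X n => (⟨⟨cl n v y.1, hcell y.1 y.2⟩, hno y.1 y.2⟩ :
          {c // c ∈ Λ.W (MSK.keys ρ')})) ?_
      intro y y' he
      have he' : cl n v y.1 = cl n v y'.1 := congrArg (fun c => c.1.1) he
      exact Subtype.ext (cl_inj hvn hvn he').2
    rw [card_X_TD] at h1
    omega
  set X2 : Lang := Function.update X' (cl n v y1) true with hX2
  have hsol2 : (Λ.Sol (join X2 fun _ => false) ρ').Nonempty := by
    refine Λ.sol_exists (join X' fun _ => false) (join X2 fun _ => false) ρ' ⟨om, hsol'⟩ ?_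
    intro w hw
    show X2 w.1 = X' w.1
    rw [hX2, Function.update_of_ne]
    rintro he
    apply hy1W
    have : (⟨cl n v y1, hcell y1 hy1⟩ : AFF.Cell (2 * n + 3) ((n + 2) ^ (i + 2))) = w := Subtype.ext he.symm
    rw [this]
    exact hw
  obtain ⟨om2, hom2, hom2c⟩ := sol_sparse Λ _ ρ' hsol2 fun c => J c.1
  refine ⟨insert (cl n v y1) C, X2, om2, ρ', ?_, ?_, ?_, ?_, ?_, hρ'q, hom2, hom2c, ?_⟩
  · rw [hcard]
    exact (Finset.card_insert_le _ _).trans (Nat.add_le_add_right hC 1)
  · intro w hw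
    rw [Finset.mem_insert, not_or] at hw
    rw [hX2, Function.update_of_ne hw.1]
    exact hCX w hw.2
  · intro w hw
    rw [Finset.mem_insert] at hw
    rcases hw with rfl | hw
    · exact ⟨v, Finset.mem_insert_self _ _, y1, hy1, rfl⟩
    · obtain ⟨v', hv', y, hy, rfl⟩ := hCA w hw
      exact ⟨v', Finset.mem_insert_of_mem hv', y, hy, rfl⟩
  · intro v' hv'
    rw [Finset.mem_insert] at hv'
    rcases hv' with rfl | hv'
    · exact ⟨y1, hy1, Function.update_self _ _ _⟩
    · obtain ⟨y, hy, hyX⟩ := hAX v' hv'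
      refine ⟨y, hy, ?_⟩
      by_cases he : cl n v' y = cl n v y1
      · rw [he]
        exact Function.update_self _ _ _
      · rw [hX2, Function.update_of_ne he]
        exact hyX
  · rw [hcard]
    exact hρ'len
  · intro X'' om'' hX'' hom'' v' hv'
    rw [Finset.mem_insert] at hv'
    have hmem : ∀ q ∈ ρ', Λ.part (join X'' fun _ => false) om'' q.1 = MSK.bz q.2 := by
      unfold MSK.LS.Sol at hom''
      exact (Finset.mem_filter.1 hom'').2
    rcases hv' with rfl | hv'
    · unfold NL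
      rw [decide_eq_true_eq]
      refine ⟨y0, hy0, ?_⟩
      rw [← eval_mt, eval_qs (O := O1) _ ?_]
      · exact hacc
      · intro q hq
        have hq1 : q ∈ K := hq
        have hqL : q.length ≤ ((n + 2) ^ (i + 2)) := (hKq q hq1).le
        have hX'X : ∀ w : Str, w.length + 2 < (2 * n + 3) → X' w = X w := by
          intro w hw
          apply hCX
          intro hwC
          obtain ⟨v', hv', y, hy, rfl⟩ := hCA w hwC
          rw [cl_len (hV v' (hA hv')) hy] at hw
          omega
        rw [hO1, OV_ls hext Pt (o v') X J hnL.le X'' om'' hX'' q hqL,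
          OV_ls hext Pt (o v') X J hnL.le X' om hX'X q hqL]
        congr 1
        have h1 := hmem (q, MSK.tb (Λ.part (join X' fun _ => false) om q)) (by
          rw [hρ', List.mem_append]
          exact Or.inl (List.mem_map.2 ⟨q, hq1, rfl⟩))
        rw [tb_bz] at h1
        exact congrArg MSK.tb h1
    · refine hpers X'' om'' hX'' ?_ v' hv'
      unfold MSK.LS.Sol
      rw [Finset.mem_filter]
      refine ⟨Finset.mem_univ _, fun q hq => hmem q ?_⟩
      rw [hρ', List.mem_append]
      exact Or.inr hq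

/-- One stage: the `i`-th `NP` machine is wrong about the complement of the language of the inputs
with a witness, for all further oracles `o v`. -/
theorem stage (hext : Adm ext) {Pt : Lang} (hP : AFF.GenP (TT ext) Pt) (o : Str → Lang)
    (X J : Lang) (n i : ℕ) (hnL : 2 * n + 3 < (n + 2) ^ (i + 2)) (V : Finset Str)
    (hV : ∀ v ∈ V, v.length < n)
    (hnum : 2 * (3 * ((n + 2) ^ (i + 2) + 2) ^ 2) * (V.card * (n + 2) ^ i) < 2 ^ n)
    (hX : ∀ w : Str, w.length = 2 * n → X (true :: w) = false) :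
    ∃ (X' J' : Lang) (C D : Finset Str), (∀ w, w ∉ C → X' w = X w) ∧
      (∀ w ∈ C, w.length = 2 * n + 1 ∧ ∃ u, w = true :: u) ∧ C.card ≤ V.card ∧
      (∀ w, w ∉ D → J' w = J w) ∧ (∀ w ∈ D, 2 * n + 1 ≤ w.length) ∧
      D.card ≤ V.card * (n + 2) ^ i ∧
      ∀ v ∈ V, (NL i (OV ext Pt (o v) X' J') (xv n v) = true ↔
        ∃ y : Str, y.length = n ∧ X' (cl n v y) = true) := by
  classical
  obtain ⟨A, hA, hmax⟩ := Finset.exists_max_image
    (V.powerset.filter fun A => St hext Pt o X J n i A) Finset.card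
    ⟨∅, Finset.mem_filter.2 ⟨Finset.empty_mem_powerset _, St_empty hext Pt o X J n i⟩⟩
  rw [Finset.mem_filter, Finset.mem_powerset] at hA
  obtain ⟨hAV, C, X', om, ρ, hC, hCX, hCA, hAX, hρ, hρq, hom, homc, hpers⟩ := hA
  have hX'X : ∀ w : Str, w.length + 2 < 2 * n + 3 → X' w = X w := by
    intro w hw
    apply hCX
    intro hwC
    obtain ⟨v', hv', y, hy, rfl⟩ := hCA w hwC
    rw [cl_len (hV v' (hAV hv')) hy] at hw
    omega
  refine ⟨X', AFF.ovr (2 * n + 3) ((n + 2) ^ (i + 2)) J om, C,
    (Finset.univ.filter fun c => om c ≠ J c.1).image fun c => c.1, hCX, ?_,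
    hC.trans (Finset.card_le_card hAV), ?_, ?_, ?_, ?_⟩
  · intro w hw
    obtain ⟨v', hv', y, hy, rfl⟩ := hCA w hw
    exact ⟨cl_len (hV v' (hAV hv')) hy, _, rfl⟩
  · intro w hw
    unfold AFF.ovr
    split_ifs with h
    · by_contra hne
      exact hw (Finset.mem_image.2 ⟨⟨w, h⟩, Finset.mem_filter.2 ⟨Finset.mem_univ _, hne⟩, rfl⟩)
    · rfl
  · intro w hw
    obtain ⟨c, hc, rfl⟩ := Finset.mem_image.1 hw
    have := c.2.1
    omega
  · refine Finset.card_image_le.trans (homc.trans (hρ.trans ?_))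
    exact Nat.mul_le_mul_right _ (Finset.card_le_card hAV)
  · intro v hv
    by_cases hvA : v ∈ A
    · exact iff_of_true (hpers X' om hX'X hom v hvA) (hAX v hvA)
    · refine iff_of_false ?_ ?_
      · intro hacc
        have h1 := St_step hext hP o X J n i hnL V hV hnum A hAV v hv hvA C X' om ρ hC hCX hCA
          hAX hρ hρq hom hpers hacc
        have h2 := hmax (insert v A) (Finset.mem_filter.2
          ⟨Finset.mem_powerset.2 (Finset.insert_subset hv hAV), h1⟩)
        rw [Finset.card_insert_of_notMem hvA] at h2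
        omega
      · rintro ⟨y, hy, hyX⟩
        rw [hCX (cl n v y) (by
          intro hwC
          obtain ⟨v', hv', y', hy', he⟩ := hCA _ hwC
          have := (cl_inj (hV v hv) (hV v' (hAV hv')) he).1
          subst this
          exact hvA hv')] at hyX
        have h1 := hX (xv n v ++ y) (by
          rw [List.length_append, xv_len (hV v hv), hy]
          omega)
        have h2 : X (cl n v y) = false := h1
        rw [h2] at hyX
        exact absurd hyX (by simp)

end

end Pool.Agent.AEC
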